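import Mathlib

/-!
Log-concavity of the volume of central sections of coordinate-scaled `ℓ_p` balls for `1 < p < 2`.

Idea.  `exp (-|x|^q)` is the limit of `m`-fold products of Laplace transforms, in `|x|^p`, of
Pareto laws, whose densities are log-concave in the logarithm of the variable.  Products only add
the mixing variables, and a log-convex sum inside a decreasing multiplicatively log-concave function
is harmless, so the Prekopa-Leindler inequality passes the statement from `p` to every `q < p`.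
The case `p = 2` is a Gaussian computation.
-/

set_option autoImplicit false
open MeasureTheory Set Filter Topology
open scoped ENNReal

namespace Pool.Agent.Results.MP_10bc19_gt.SectionsBelowTwo

/-- weighted integral of `exp (-∑ v_j N_j)` -/
noncomputable def G {E : Type*} [MeasurableSpace E] (μ : Measure E) {n : ℕ} (N : Fin n → E → ℝ)
    (Φ : E → ℝ≥0∞) (v : Fin n → ℝ) : ℝ≥0∞ :=
  ∫⁻ x, ENNReal.ofReal (Real.exp (-∑ j, v j * N j x)) * Φ x ∂μ

/-- the multiplicative midpoint inequality for a triple of weights -/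
def TP {E : Type*} [MeasurableSpace E] (μ : Measure E) {n : ℕ} (N : Fin n → E → ℝ)
    (Φ₁ Φ₂ Φ₃ : E → ℝ≥0∞) : Prop :=
  ∀ v v' : Fin n → ℝ, (∀ j, 0 < v j) → (∀ j, 0 < v' j) →
    G μ N Φ₁ v * G μ N Φ₂ v' ≤ (G μ N Φ₃ (fun j => Real.sqrt (v j * v' j))) ^ 2

/-- Laplace transform of the density `h` on the half line -/
noncomputable def lap (h : ℝ → ℝ≥0∞) (l : ℝ) : ℝ≥0∞ :=
  ∫⁻ s in Ioi (0 : ℝ), h s * ENNReal.ofReal (Real.exp (-(l * s)))

/-- Pareto density with index `α` -/
noncomputable def pareto (α s : ℝ) : ℝ≥0∞ :=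
  if 1 ≤ s then ENNReal.ofReal (α * s ^ (-1 - α)) else 0

/-- the constant of the stable limit -/
noncomputable def C (α : ℝ) : ℝ := ∫ r in Ioi (0 : ℝ), α * r ^ (-1 - α) * (1 - Real.exp (-r))

/-- one-dimensional Brunn-Minkowski, compact case -/
theorem bm_compact {K L C : Set ℝ} (hK : IsCompact K) (hL : IsCompact L)
    (hK' : K.Nonempty) (hL' : L.Nonempty)
    (hC : ∀ x ∈ K, ∀ y ∈ L, (x + y) / 2 ∈ C) :
    volume K + volume L ≤ 2 * volume C := by
  obtain ⟨a, ha, hamax⟩ := hK.exists_isMaxOn hK' continuousOn_id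
  obtain ⟨b, hb, hbmin⟩ := hL.exists_isMinOn hL' continuousOn_id
  have hamax' : ∀ x ∈ K, x ≤ a := fun x hx => hamax hx
  have hbmin' : ∀ y ∈ L, b ≤ y := fun y hy => hbmin hy
  set S1 : Set ℝ := (fun x => (x + b) / 2) '' K with hS1
  set S2 : Set ℝ := (fun y => (a + y) / 2) '' L with hS2
  have hS1c : IsCompact S1 := hK.image (by fun_prop)
  have hS2c : IsCompact S2 := hL.image (by fun_prop)
  have h1 : S1 ∪ S2 ⊆ C := by
    rintro z (⟨x, hx, rfl⟩ | ⟨y, hy, rfl⟩)
    · exact hC x hx b hb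
    · exact hC a ha y hy
  have hint : volume (S1 ∩ S2) = 0 := by
    refine measure_mono_null (t := {(a + b) / 2}) ?_ (by simp)
    rintro z ⟨⟨x, hx, hxz⟩, ⟨y, hy, hyz⟩⟩
    simp only at hxz hyz
    have e1 := hamax' x hx
    have e2 := hbmin' y hy
    simp only [mem_singleton_iff]
    linarith
  have hv1 : volume S1 = ENNReal.ofReal (1 / 2) * volume K := by
    have : S1 = (fun x => x + b / 2) '' ((fun x => (1 / 2 : ℝ) * x) '' K) := by
      rw [hS1, image_image]
      congr 1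
      ext x; ring
    rw [this]
    have e1 : volume ((fun x : ℝ => x + b / 2) '' ((fun x => (1 / 2 : ℝ) * x) '' K))
        = volume ((fun x => (1 / 2 : ℝ) * x) '' K) := by
      simp
    rw [e1]
    have e2 := Measure.addHaar_image_homothety (volume : Measure ℝ) (0 : ℝ) (1 / 2 : ℝ) K
    have e3 : (fun x => (1 / 2 : ℝ) * x) '' K = (AffineMap.homothety (0 : ℝ) (1 / 2 : ℝ)) '' K := by
      congr 1
      ext x
      simp [AffineMap.homothety_apply]
    rw [e3, e2]
    norm_num
  have hv2 : volume S2 = ENNReal.ofReal (1 / 2) * volume L := by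
    have : S2 = (fun x => x + a / 2) '' ((fun x => (1 / 2 : ℝ) * x) '' L) := by
      rw [hS2, image_image]
      congr 1
      ext x; ring
    rw [this]
    have e1 : volume ((fun x : ℝ => x + a / 2) '' ((fun x => (1 / 2 : ℝ) * x) '' L))
        = volume ((fun x => (1 / 2 : ℝ) * x) '' L) := by
      simp
    rw [e1]
    have e2 := Measure.addHaar_image_homothety (volume : Measure ℝ) (0 : ℝ) (1 / 2 : ℝ) L
    have e3 : (fun x => (1 / 2 : ℝ) * x) '' L = (AffineMap.homothety (0 : ℝ) (1 / 2 : ℝ)) '' L := by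
      congr 1
      ext x
      simp [AffineMap.homothety_apply]
    rw [e3, e2]
    norm_num
  have hu : volume (S1 ∪ S2) + volume (S1 ∩ S2) = volume S1 + volume S2 :=
    measure_union_add_inter S1 hS2c.measurableSet
  rw [hint, add_zero] at hu
  have h2 : volume S1 + volume S2 ≤ volume C := by
    rw [← hu]; exact measure_mono h1
  rw [hv1, hv2] at h2
  have h3 : (2 : ℝ≥0∞) * (ENNReal.ofReal (1 / 2)) = 1 := by
    rw [show (2 : ℝ≥0∞) = ENNReal.ofReal 2 by simp, ← ENNReal.ofReal_mul (by norm_num)]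
    norm_num
  calc volume K + volume L = 2 * (ENNReal.ofReal (1 / 2) * volume K + ENNReal.ofReal (1 / 2) * volume L) := by
        rw [mul_add, ← mul_assoc, ← mul_assoc, h3, one_mul, one_mul]
    _ ≤ 2 * volume C := by gcongr

theorem bm {A B C : Set ℝ} (hA : MeasurableSet A) (hB : MeasurableSet B)
    (hA' : A.Nonempty) (hB' : B.Nonempty)
    (hC : ∀ x ∈ A, ∀ y ∈ B, (x + y) / 2 ∈ C) :
    volume A + volume B ≤ 2 * volume C := by
  obtain ⟨a, ha⟩ := hA'
  obtain ⟨b, hb⟩ := hB'
  have key : ∀ K, K ⊆ A → IsCompact K → ∀ L, L ⊆ B → IsCompact L →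
      volume K + volume L ≤ 2 * volume C := by
    intro K hKA hK L hLB hL
    have h := bm_compact (K := insert a K) (L := insert b L) (C := C) (hK.insert a) (hL.insert b)
      (insert_nonempty _ _) (insert_nonempty _ _) (fun x hx y hy => hC x (insert_subset ha hKA hx) y
        (insert_subset hb hLB hy))
    refine le_trans ?_ h
    gcongr
    · exact subset_insert _ _
    · exact subset_insert _ _
  rw [hA.measure_eq_iSup_isCompact, hB.measure_eq_iSup_isCompact]
  simp only [iSup_and']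
  refine ENNReal.biSup_add_biSup_le' ⟨∅, empty_subset _, isCompact_empty⟩
    ⟨∅, empty_subset _, isCompact_empty⟩ ?_
  rintro K ⟨hKA, hK⟩ L ⟨hLB, hL⟩
  exact key K hKA hK L hLB hL

/-- one-dimensional Prekopa-Leindler, normalised case -/
theorem pl1_aux (f g h : ℝ → ℝ) (hf : Measurable f) (hg : Measurable g) (hh : Measurable h)
    (f0 : ∀ x, 0 ≤ f x) (g0 : ∀ x, 0 ≤ g x) (h0 : ∀ x, 0 ≤ h x)
    (f1 : ∀ x, f x ≤ 1) (g1 : ∀ x, g x ≤ 1)
    (hfs : ∀ t, t < 1 → ∃ x, t < f x) (hgs : ∀ t, t < 1 → ∃ x, t < g x)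
    (H : ∀ x y, f x * g y ≤ h ((x + y) / 2) ^ 2) :
    (∫⁻ x, ENNReal.ofReal (f x)) + (∫⁻ x, ENNReal.ofReal (g x))
      ≤ 2 * ∫⁻ x, ENNReal.ofReal (h x) := by
  rw [lintegral_eq_lintegral_meas_lt volume (Filter.Eventually.of_forall f0) hf.aemeasurable,
    lintegral_eq_lintegral_meas_lt volume (Filter.Eventually.of_forall g0) hg.aemeasurable,
    lintegral_eq_lintegral_meas_lt volume (Filter.Eventually.of_forall h0) hh.aemeasurable]
  have hm : ∀ k : ℝ → ℝ, Measurable (fun t : ℝ => volume {a : ℝ | t < k a}) := fun k =>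
    (Antitone.measurable (fun s t hst => measure_mono (fun a (ha : t < k a) =>
      show s < k a from lt_of_le_of_lt hst ha)))
  rw [← lintegral_add_left (hm f), ← lintegral_const_mul _ (hm h)]
  refine setLIntegral_mono' measurableSet_Ioi ?_
  intro t ht
  have ht0 : 0 < t := ht
  by_cases ht1 : t < 1
  · refine bm (hf measurableSet_Ioi) (hg measurableSet_Ioi) (hfs t ht1) (hgs t ht1) ?_
    intro x hx y hy
    have hx' : t < f x := hx
    have hy' : t < g y := hy
    have hxy := H x y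
    have h2 : t ^ 2 < h ((x + y) / 2) ^ 2 := by
      calc t ^ 2 = t * t := by ring
        _ < f x * g y := by
          apply mul_lt_mul'' hx' hy' ht0.le ht0.le
        _ ≤ _ := hxy
    exact lt_of_pow_lt_pow_left₀ 2 (h0 _) h2
  · push Not at ht1
    have e1 : {a : ℝ | t < f a} = ∅ := by
      ext a; simp; linarith [f1 a]
    have e2 : {a : ℝ | t < g a} = ∅ := by
      ext a; simp; linarith [g1 a]
    simp [e1, e2]

theorem pl1_bdd (F G H : ℝ → ℝ≥0∞) (hF : Measurable F) (hG : Measurable G) (hH : Measurable H)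
    (k : ℝ≥0∞) (hk : k ≠ ∞) (Fk : ∀ x, F x ≤ k) (Gk : ∀ x, G x ≤ k)
    (HH : ∀ x y, F x * G y ≤ H ((x + y) / 2) ^ 2) :
    (∫⁻ x, F x) * (∫⁻ x, G x) ≤ (∫⁻ x, H x) ^ 2 := by
  by_cases hM0 : (⨆ x, F x) = 0
  · have : ∀ x, F x = 0 := by simpa using hM0
    simp [this]
  by_cases hN0 : (⨆ x, G x) = 0
  · have : ∀ x, G x = 0 := by simpa using hN0
    simp [this]
  set M := ⨆ x, F x with hM
  set N := ⨆ x, G x with hN
  have hMk : M ≤ k := iSup_le Fk
  have hNk : N ≤ k := iSup_le Gk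
  have hMt : M ≠ ∞ := ne_top_of_le_ne_top hk hMk
  have hNt : N ≠ ∞ := ne_top_of_le_ne_top hk hNk
  by_cases hC : (∫⁻ x, H x) = ∞
  · rw [hC]; simp
  set m := M.toReal with hm
  set n := N.toReal with hn
  have mpos : 0 < m := ENNReal.toReal_pos hM0 hMt
  have npos : 0 < n := ENNReal.toReal_pos hN0 hNt
  have hFt : ∀ x, F x ≠ ∞ := fun x => ne_top_of_le_ne_top hk (Fk x)
  have hGt : ∀ x, G x ≠ ∞ := fun x => ne_top_of_le_ne_top hk (Gk x)
  have hmn : 0 < Real.sqrt (m * n) := Real.sqrt_pos.mpr (by positivity)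
  set f : ℝ → ℝ := fun x => m⁻¹ * (F x).toReal with hf
  set g : ℝ → ℝ := fun x => n⁻¹ * (G x).toReal with hg
  set h' : ℝ → ℝ≥0∞ := fun x => min (ENNReal.ofReal (Real.sqrt (m * n))⁻¹ * H x) 1 with hh'
  set h : ℝ → ℝ := fun x => (h' x).toReal with hh
  have h't : ∀ x, h' x ≠ ∞ := fun x => ne_top_of_le_ne_top ENNReal.one_ne_top (min_le_right _ _)
  have f0 : ∀ x, 0 ≤ f x := fun x => by positivity
  have g0 : ∀ x, 0 ≤ g x := fun x => by positivity
  have h0 : ∀ x, 0 ≤ h x := fun x => ENNReal.toReal_nonneg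
  have FM : ∀ x, (F x).toReal ≤ m := fun x => ENNReal.toReal_mono hMt (le_iSup F x)
  have GN : ∀ x, (G x).toReal ≤ n := fun x => ENNReal.toReal_mono hNt (le_iSup G x)
  have f1 : ∀ x, f x ≤ 1 := fun x => by
    have := FM x
    simp only [hf]
    rw [inv_mul_le_iff₀ mpos]; linarith
  have g1 : ∀ x, g x ≤ 1 := fun x => by
    have := GN x
    simp only [hg]
    rw [inv_mul_le_iff₀ npos]; linarith
  have hfs : ∀ t, t < 1 → ∃ x, t < f x := by
    intro t ht
    by_cases ht0 : t < 0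
    · exact ⟨0, lt_of_lt_of_le ht0 (f0 0)⟩
    push Not at ht0
    have h1 : ENNReal.ofReal (t * m) < M := by
      rw [ENNReal.ofReal_lt_iff_lt_toReal (by positivity) hMt]
      nlinarith
    obtain ⟨x, hx⟩ := lt_iSup_iff.mp h1
    refine ⟨x, ?_⟩
    rw [ENNReal.ofReal_lt_iff_lt_toReal (by positivity) (hFt x)] at hx
    simp only [hf]
    rw [lt_inv_mul_iff₀ mpos]; linarith
  have hgs : ∀ t, t < 1 → ∃ x, t < g x := by
    intro t ht
    by_cases ht0 : t < 0
    · exact ⟨0, lt_of_lt_of_le ht0 (g0 0)⟩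
    push Not at ht0
    have h1 : ENNReal.ofReal (t * n) < N := by
      rw [ENNReal.ofReal_lt_iff_lt_toReal (by positivity) hNt]
      nlinarith
    obtain ⟨x, hx⟩ := lt_iSup_iff.mp h1
    refine ⟨x, ?_⟩
    rw [ENNReal.ofReal_lt_iff_lt_toReal (by positivity) (hGt x)] at hx
    simp only [hg]
    rw [lt_inv_mul_iff₀ npos]; linarith
  have H1 : ∀ x y, f x * g y ≤ h ((x + y) / 2) ^ 2 := by
    intro x y
    simp only [hh, hh']
    rcases le_total (ENNReal.ofReal (Real.sqrt (m * n))⁻¹ * H ((x + y) / 2)) 1 with hle | hle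
    · rw [min_eq_left hle]
      have hHt : H ((x + y) / 2) ≠ ∞ := by
        intro hinf
        rw [hinf, ENNReal.mul_top (by simpa using hmn)] at hle
        simp at hle
      rw [ENNReal.toReal_mul, ENNReal.toReal_ofReal (by positivity)]
      have h2 := ENNReal.toReal_mono (by finiteness) (HH x y)
      rw [ENNReal.toReal_mul, ENNReal.toReal_pow] at h2
      have h3 : (Real.sqrt (m * n)) ^ 2 = m * n := Real.sq_sqrt (by positivity)
      simp only [hf, hg]
      rw [mul_pow, inv_pow, h3, mul_inv]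
      calc m⁻¹ * (F x).toReal * (n⁻¹ * (G y).toReal)
          = m⁻¹ * n⁻¹ * ((F x).toReal * (G y).toReal) := by ring
        _ ≤ _ := by gcongr
    · rw [min_eq_right hle]
      simp only [ENNReal.toReal_one, one_pow]
      exact mul_le_one₀ (f1 x) (g0 y) (g1 y)
  have hfm : Measurable f := (hF.ennreal_toReal).const_mul _
  have hgm : Measurable g := (hG.ennreal_toReal).const_mul _
  have hhm : Measurable h := ((hH.const_mul _).min measurable_const).ennreal_toReal
  have main := pl1_aux f g h hfm hgm hhm f0 g0 h0 f1 g1 hfs hgs H1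
  have e1 : (∫⁻ x, ENNReal.ofReal (f x)) = ENNReal.ofReal m⁻¹ * ∫⁻ x, F x := by
    rw [← lintegral_const_mul _ hF]
    refine lintegral_congr (fun x => ?_)
    simp only [hf]
    rw [ENNReal.ofReal_mul (by positivity), ENNReal.ofReal_toReal (hFt x)]
  have e2 : (∫⁻ x, ENNReal.ofReal (g x)) = ENNReal.ofReal n⁻¹ * ∫⁻ x, G x := by
    rw [← lintegral_const_mul _ hG]
    refine lintegral_congr (fun x => ?_)
    simp only [hg]
    rw [ENNReal.ofReal_mul (by positivity), ENNReal.ofReal_toReal (hGt x)]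
  have e3 : (∫⁻ x, ENNReal.ofReal (h x)) ≤ ENNReal.ofReal (Real.sqrt (m * n))⁻¹ * ∫⁻ x, H x := by
    rw [← lintegral_const_mul _ hH]
    refine lintegral_mono (fun x => ?_)
    simp only [hh]
    rw [ENNReal.ofReal_toReal (h't x)]
    exact min_le_left _ _
  have main2 : ENNReal.ofReal m⁻¹ * (∫⁻ x, F x) + ENNReal.ofReal n⁻¹ * (∫⁻ x, G x)
      ≤ 2 * (ENNReal.ofReal (Real.sqrt (m * n))⁻¹ * ∫⁻ x, H x) := by
    rw [← e1, ← e2]
    refine main.trans ?_
    gcongr
  set A := ∫⁻ x, F x with hA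
  set B := ∫⁻ x, G x with hB
  set C := ∫⁻ x, H x with hC'
  have hR : 2 * (ENNReal.ofReal (Real.sqrt (m * n))⁻¹ * C) ≠ ∞ := by finiteness
  have hAt : A ≠ ∞ := by
    intro hinf
    rw [hinf, ENNReal.mul_top (by simpa using mpos)] at main2
    simp only [top_add, top_le_iff] at main2
    exact hR main2
  have hBt : B ≠ ∞ := by
    intro hinf
    rw [hinf, ENNReal.mul_top (by simpa using npos)] at main2
    simp only [add_top, top_le_iff] at main2
    exact hR main2
  have main3 := ENNReal.toReal_mono hR main2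
  rw [ENNReal.toReal_add (by finiteness) (by finiteness), ENNReal.toReal_mul, ENNReal.toReal_mul,
    ENNReal.toReal_mul, ENNReal.toReal_mul, ENNReal.toReal_ofReal (by positivity),
    ENNReal.toReal_ofReal (by positivity), ENNReal.toReal_ofReal (by positivity)] at main3
  have hfin : A.toReal * B.toReal ≤ C.toReal ^ 2 := by
    have a0 : 0 ≤ A.toReal := ENNReal.toReal_nonneg
    have b0 : 0 ≤ B.toReal := ENNReal.toReal_nonneg
    have c0 : 0 ≤ C.toReal := ENNReal.toReal_nonneg
    have h3 : (Real.sqrt (m * n)) ^ 2 = m * n := Real.sq_sqrt (by positivity)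
    have hsq : (m⁻¹ * A.toReal + n⁻¹ * B.toReal) ^ 2
        ≤ (2 * ((Real.sqrt (m * n))⁻¹ * C.toReal)) ^ 2 := by
      have h2 : (ENNReal.toReal 2) = 2 := by simp
      rw [h2] at main3
      gcongr
    have hsq2 : (2 * ((Real.sqrt (m * n))⁻¹ * C.toReal)) ^ 2
        = 4 * (m⁻¹ * n⁻¹) * C.toReal ^ 2 := by
      rw [mul_pow, mul_pow, inv_pow, h3, mul_inv]; ring
    have hsq3 : 4 * (m⁻¹ * n⁻¹) * (A.toReal * B.toReal)
        ≤ (m⁻¹ * A.toReal + n⁻¹ * B.toReal) ^ 2 := by
      nlinarith [sq_nonneg (m⁻¹ * A.toReal - n⁻¹ * B.toReal)]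
    have h4 : 4 * (m⁻¹ * n⁻¹) * (A.toReal * B.toReal) ≤ 4 * (m⁻¹ * n⁻¹) * C.toReal ^ 2 := by
      linarith
    have h5 : 0 < 4 * (m⁻¹ * n⁻¹) := by positivity
    exact le_of_mul_le_mul_left h4 h5
  rw [← ENNReal.ofReal_toReal hAt, ← ENNReal.ofReal_toReal hBt, ← ENNReal.ofReal_toReal hC,
    ← ENNReal.ofReal_mul ENNReal.toReal_nonneg, ← ENNReal.ofReal_pow ENNReal.toReal_nonneg]
  exact ENNReal.ofReal_le_ofReal hfin

/-- one-dimensional Prekopa-Leindler inequality -/
theorem pl1 (F G H : ℝ → ℝ≥0∞) (hF : Measurable F) (hG : Measurable G) (hH : Measurable H)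
    (HH : ∀ x y, F x * G y ≤ H ((x + y) / 2) ^ 2) :
    (∫⁻ x, F x) * (∫⁻ x, G x) ≤ (∫⁻ x, H x) ^ 2 := by
  have trunc : ∀ K : ℝ → ℝ≥0∞, Measurable K →
      (∫⁻ x, K x) = ⨆ k : ℕ, ∫⁻ x, min (K x) (k : ℝ≥0∞) := by
    intro K hK
    rw [← lintegral_iSup (fun k => hK.min measurable_const)]
    · refine lintegral_congr (fun x => ?_)
      rw [← inf_iSup_eq, ENNReal.iSup_natCast]
      simp
    · intro k l hkl x
      simp only
      gcongr
  rw [trunc F hF, trunc G hG, ENNReal.iSup_mul]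
  refine iSup_le (fun k => ?_)
  rw [ENNReal.mul_iSup]
  refine iSup_le (fun l => ?_)
  refine pl1_bdd _ _ H (hF.min measurable_const) (hG.min measurable_const) hH
    (max (k : ℝ≥0∞) l) (by finiteness) (fun x => ?_) (fun x => ?_) (fun x y => ?_)
  · exact (min_le_right _ _).trans (le_max_left _ _)
  · exact (min_le_right _ _).trans (le_max_right _ _)
  · refine le_trans ?_ (HH x y)
    gcongr
    · exact min_le_left _ _
    · exact min_le_left _ _

/-- multiplicative form on the half line -/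
theorem mpl1 (F G H : ℝ → ℝ≥0∞) (hF : Measurable F) (hG : Measurable G) (hH : Measurable H)
    (HH : ∀ x y, 0 < x → 0 < y → F x * G y ≤ H (Real.sqrt (x * y)) ^ 2) :
    (∫⁻ x in Ioi 0, F x) * (∫⁻ x in Ioi 0, G x) ≤ (∫⁻ x in Ioi 0, H x) ^ 2 := by
  have cov : ∀ K : ℝ → ℝ≥0∞, (∫⁻ x in Ioi 0, K x)
      = ∫⁻ x, ENNReal.ofReal (Real.exp x) * K (Real.exp x) := by
    intro K
    have h := lintegral_image_eq_lintegral_abs_deriv_mul (s := univ) (f := Real.exp)
      (f' := Real.exp) MeasurableSet.univ (fun x _ => (Real.hasDerivAt_exp x).hasDerivWithinAt)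
      (Real.exp_injective.injOn) K
    rw [image_univ, Real.range_exp] at h
    rw [h]
    simp
  rw [cov F, cov G, cov H]
  refine pl1 _ _ _ (by fun_prop) (by fun_prop) (by fun_prop) (fun x y => ?_)
  have h1 := HH (Real.exp x) (Real.exp y) (Real.exp_pos x) (Real.exp_pos y)
  have h2 : Real.sqrt (Real.exp x * Real.exp y) = Real.exp ((x + y) / 2) := by
    rw [← Real.exp_add, Real.sqrt_eq_iff_mul_self_eq (by positivity) (by positivity),
      ← Real.exp_add]
    congr 1; ring
  rw [h2] at h1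
  calc ENNReal.ofReal (Real.exp x) * F (Real.exp x) * (ENNReal.ofReal (Real.exp y) * G (Real.exp y))
      = (ENNReal.ofReal (Real.exp x) * ENNReal.ofReal (Real.exp y))
        * (F (Real.exp x) * G (Real.exp y)) := by ring
    _ ≤ (ENNReal.ofReal (Real.exp x) * ENNReal.ofReal (Real.exp y))
        * H (Real.exp ((x + y) / 2)) ^ 2 := by gcongr
    _ = (ENNReal.ofReal (Real.exp ((x + y) / 2)) * H (Real.exp ((x + y) / 2))) ^ 2 := by
        rw [← ENNReal.ofReal_mul (by positivity), ← Real.exp_add, mul_pow,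
          ← ENNReal.ofReal_pow (by positivity), ← Real.exp_nat_mul]
        congr 3
        push_cast; ring


/-- J1: a contraction of a finite-dimensional inner product space has determinant at most one -/
theorem abs_det_le_one {F : Type*} [NormedAddCommGroup F] [InnerProductSpace ℝ F]
    [FiniteDimensional ℝ F] (K : F →ₗ[ℝ] F) (hK : ∀ x, ‖K x‖ ≤ ‖x‖) : |LinearMap.det K| ≤ 1 := by
  letI : MeasurableSpace F := borel F
  haveI : BorelSpace F := ⟨rfl⟩
  let μ : Measure F := Measure.addHaar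
  have h1 := Measure.addHaar_image_linearMap μ K (Metric.ball (0 : F) 1)
  have h2 : K '' (Metric.ball (0 : F) 1) ⊆ Metric.ball (0 : F) 1 := by
    rintro _ ⟨x, hx, rfl⟩
    rw [mem_ball_zero_iff] at hx ⊢
    exact (hK x).trans_lt hx
  have h3 : μ (K '' (Metric.ball (0 : F) 1)) ≤ μ (Metric.ball (0 : F) 1) := measure_mono h2
  rw [h1] at h3
  have h4 : μ (Metric.ball (0 : F) 1) ≠ 0 := (Metric.measure_ball_pos μ 0 one_pos).ne'
  have h5 : μ (Metric.ball (0 : F) 1) ≠ ⊤ := measure_ball_lt_top.ne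
  by_contra hcon
  push Not at hcon
  have h6 : (1 : ℝ≥0∞) < ENNReal.ofReal |LinearMap.det K| := by
    rw [← ENNReal.ofReal_one]
    exact (ENNReal.ofReal_lt_ofReal_iff (by linarith)).2 hcon
  have h7 := ENNReal.mul_lt_mul_left h4 h5 h6
  rw [one_mul] at h7
  exact absurd h3 (not_le.2 h7)

theorem base_two_aux {E : Type*} [NormedAddCommGroup E] [NormedSpace ℝ E] [FiniteDimensional ℝ E]
    {n : ℕ} (R : E →ₗ[ℝ] EuclideanSpace ℝ (Fin n)) (hR : Function.Injective R) :
    ∃ (T : E ≃ₗ[ℝ] EuclideanSpace ℝ (Fin (Module.finrank ℝ E)))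
      (J : EuclideanSpace ℝ (Fin (Module.finrank ℝ E)) →ₗᵢ[ℝ] EuclideanSpace ℝ (Fin n)),
      ∀ x, J (T x) = R x := by
  set U := LinearMap.range R with hU
  let e1 : E ≃ₗ[ℝ] U := LinearEquiv.ofInjective R hR
  have hfin : Module.finrank ℝ U = Module.finrank ℝ E := e1.finrank_eq.symm
  let b : OrthonormalBasis (Fin (Module.finrank ℝ E)) ℝ U :=
    (stdOrthonormalBasis ℝ U).reindex (finCongr hfin)
  refine ⟨e1.trans b.repr.toLinearEquiv, U.subtypeₗᵢ.comp b.repr.symm.toLinearIsometry, ?_⟩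
  intro x
  simp [e1]
  rfl

theorem base_two_det {F : Type*} [NormedAddCommGroup F] [InnerProductSpace ℝ F]
    [FiniteDimensional ℝ F] (A B K : F →ₗ[ℝ] F) (hK : ∀ x, ‖K x‖ ≤ ‖x‖)
    (h : ∀ u w : F, inner ℝ (K (A u)) (B w) = inner ℝ u w) :
    1 ≤ |LinearMap.det A| * |LinearMap.det B| := by
  have h1 : (LinearMap.adjoint B) ∘ₗ (K ∘ₗ A) = LinearMap.id := by
    ext u
    apply ext_inner_right ℝ
    intro w
    rw [LinearMap.comp_apply, LinearMap.adjoint_inner_left, LinearMap.comp_apply, h]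
    rfl
  have h2 : LinearMap.det (LinearMap.adjoint B) * (LinearMap.det K * LinearMap.det A) = 1 := by
    rw [← LinearMap.det_comp, ← LinearMap.det_comp, h1, LinearMap.det_id]
  have h3 : LinearMap.det (LinearMap.adjoint B) = LinearMap.det B := by
    let b := stdOrthonormalBasis ℝ F
    rw [← LinearMap.det_toMatrix b.toBasis, ← LinearMap.det_toMatrix b.toBasis,
      LinearMap.toMatrix_adjoint, Matrix.det_conjTranspose]
    simp
  rw [h3] at h2
  have h4 := abs_det_le_one K hK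
  have h5 : |LinearMap.det B| * (|LinearMap.det K| * |LinearMap.det A|) = 1 := by
    rw [← abs_mul, ← abs_mul, h2, abs_one]
  calc (1:ℝ) = |LinearMap.det K| * (|LinearMap.det A| * |LinearMap.det B|) := by
        rw [← h5]; ring
    _ ≤ 1 * (|LinearMap.det A| * |LinearMap.det B|) := by gcongr
    _ = _ := one_mul _

/-- J1: the case of exponent two (Gaussian integrals) -/
theorem base_two {E : Type*} [NormedAddCommGroup E] [NormedSpace ℝ E] [FiniteDimensional ℝ E]
    [MeasurableSpace E] [BorelSpace E] (μ : Measure E) [μ.IsAddHaarMeasure] {n : ℕ}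
    (L : E →ₗ[ℝ] (Fin n → ℝ)) (hL : Function.Injective L) :
    TP μ (fun j x => |L x j| ^ (2 : ℝ)) (fun _ => 1) (fun _ => 1) (fun _ => 1) := by
  intro v v' hv hv'
  -- the maps R_w
  let R : (Fin n → ℝ) → (E →ₗ[ℝ] EuclideanSpace ℝ (Fin n)) := fun w =>
    { toFun := fun x => WithLp.toLp 2 (fun j => Real.sqrt (w j) * L x j)
      map_add' := by
        intro x y
        ext j
        simp [mul_add]
      map_smul' := by
        intro c x
        ext j
        simp
        ring }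
  have hRapp : ∀ w x j, R w x j = Real.sqrt (w j) * L x j := fun w x j => rfl
  have hRinj : ∀ w : Fin n → ℝ, (∀ j, 0 < w j) → Function.Injective (R w) := by
    intro w hw x y hxy
    apply hL
    ext j
    have h1 : R w x j = R w y j := by rw [hxy]
    rw [hRapp, hRapp] at h1
    exact mul_left_cancel₀ (Real.sqrt_pos.2 (hw j)).ne' h1
  set s : Fin n → ℝ := fun j => Real.sqrt (v j * v' j) with hs
  have hs0 : ∀ j, 0 < s j := fun j => Real.sqrt_pos.2 (mul_pos (hv j) (hv' j))
  obtain ⟨Tv, Jv, hTv⟩ := base_two_aux (R v) (hRinj v hv)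
  obtain ⟨Tv', Jv', hTv'⟩ := base_two_aux (R v') (hRinj v' hv')
  obtain ⟨Ts, Js, hTs⟩ := base_two_aux (R s) (hRinj s hs0)
  have hinner : ∀ x y, inner ℝ (R v x) (R v' y) = inner ℝ (R s x) (R s y) := by
    intro x y
    rw [PiLp.inner_apply, PiLp.inner_apply]
    apply Finset.sum_congr rfl
    intro j _
    rw [hRapp, hRapp, hRapp, hRapp]
    simp only [RCLike.inner_apply, conj_trivial]
    have h1 : Real.sqrt (v j) * Real.sqrt (v' j) = s j := (Real.sqrt_mul (hv j).le _).symm
    have h2 : Real.sqrt (s j) * Real.sqrt (s j) = s j := Real.mul_self_sqrt (hs0 j).le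
    calc _ = (Real.sqrt (v j) * Real.sqrt (v' j)) * (L x j * L y j) := by ring
      _ = (Real.sqrt (s j) * Real.sqrt (s j)) * (L x j * L y j) := by rw [h1, h2]
      _ = _ := by ring
  set F := EuclideanSpace ℝ (Fin (Module.finrank ℝ E)) with hF
  let A : F →ₗ[ℝ] F := Tv.toLinearMap ∘ₗ Ts.symm.toLinearMap
  let B : F →ₗ[ℝ] F := Tv'.toLinearMap ∘ₗ Ts.symm.toLinearMap
  let K : F →ₗ[ℝ] F := LinearMap.adjoint Jv'.toLinearMap ∘ₗ Jv.toLinearMap
  have hK : ∀ x, ‖K x‖ ≤ ‖x‖ := by
    intro x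
    by_cases h0 : ‖K x‖ = 0
    · rw [h0]; exact norm_nonneg _
    have h1 : ‖K x‖ * ‖K x‖ ≤ ‖x‖ * ‖K x‖ := by
      rw [← real_inner_self_eq_norm_mul_norm]
      have h2 : (inner ℝ (K x) (K x) : ℝ) = inner ℝ (Jv x) (Jv' (K x)) := by
        conv_lhs => rw [show K x = LinearMap.adjoint Jv'.toLinearMap (Jv x) from rfl]
        rw [LinearMap.adjoint_inner_left]
        rfl
      rw [h2]
      refine (real_inner_le_norm _ _).trans ?_
      rw [LinearIsometry.norm_map, LinearIsometry.norm_map]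
    exact le_of_mul_le_mul_right h1 (lt_of_le_of_ne (norm_nonneg _) (Ne.symm h0))
  have hKAB : ∀ u w : F, inner ℝ (K (A u)) (B w) = inner ℝ u w := by
    intro u w
    have h1 : (inner ℝ (K (A u)) (B w) : ℝ) = inner ℝ (Jv (A u)) (Jv' (B w)) := by
      rw [show K (A u) = LinearMap.adjoint Jv'.toLinearMap (Jv (A u)) from rfl,
        LinearMap.adjoint_inner_left]
      rfl
    rw [h1, show A u = Tv (Ts.symm u) from rfl, show B w = Tv' (Ts.symm w) from rfl, hTv, hTv',
      hinner, ← hTs, ← hTs, LinearIsometry.inner_map_map]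
    simp
  have hdet := base_two_det A B K hK hKAB
  have hdetA : LinearMap.det A ≠ 0 := by
    intro h0
    rw [h0] at hdet
    simp at hdet
    linarith
  have hdetB : LinearMap.det B ≠ 0 := by
    intro h0
    rw [h0] at hdet
    simp at hdet
    linarith
  -- the pushforward
  let Tsc : E ≃L[ℝ] F := Ts.toContinuousLinearEquiv
  let ν : Measure F := Measure.map Tsc μ
  haveI : ν.IsAddHaarMeasure := Tsc.isAddHaarMeasure_map μ
  let f : F → ℝ≥0∞ := fun u => ENNReal.ofReal (Real.exp (-(‖u‖ ^ 2)))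
  have hf : Measurable f := by
    have : Continuous (fun u : F => Real.exp (-(‖u‖ ^ 2))) := by fun_prop
    exact ENNReal.measurable_ofReal.comp this.measurable
  -- expression of G
  have hG : ∀ (w : Fin n → ℝ), (∀ j, 0 < w j) → ∀ (T : E ≃ₗ[ℝ] F)
      (J : F →ₗᵢ[ℝ] EuclideanSpace ℝ (Fin n)), (∀ x, J (T x) = R w x) →
      G μ (fun j x => |L x j| ^ (2 : ℝ)) (fun _ => 1) w = ∫⁻ x, f (T x) ∂μ := by
    intro w hw T J hT
    unfold G
    apply lintegral_congr
    intro x
    rw [mul_one]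
    congr 2
    congr 1
    have h1 : ‖T x‖ ^ 2 = ‖R w x‖ ^ 2 := by
      rw [← hT x, LinearIsometry.norm_map]
    rw [h1, EuclideanSpace.norm_sq_eq]
    apply Finset.sum_congr rfl
    intro j _
    show w j * |L x j| ^ (2 : ℝ) = ‖R w x j‖ ^ 2
    rw [hRapp, Real.norm_eq_abs, sq_abs, mul_pow, Real.sq_sqrt (hw j).le, Real.rpow_two, sq_abs]
  have hGs : G μ (fun j x => |L x j| ^ (2 : ℝ)) (fun _ => 1) s = ∫⁻ u, f u ∂ν := by
    rw [hG s hs0 Ts Js hTs]
    rw [lintegral_map hf Tsc.continuous.measurable]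
    rfl
  have hGA : ∀ (w : Fin n → ℝ), (∀ j, 0 < w j) → ∀ (T : E ≃ₗ[ℝ] F)
      (J : F →ₗᵢ[ℝ] EuclideanSpace ℝ (Fin n)), (∀ x, J (T x) = R w x) →
      ∀ (A : F →ₗ[ℝ] F), A = T.toLinearMap ∘ₗ Ts.symm.toLinearMap → LinearMap.det A ≠ 0 →
      G μ (fun j x => |L x j| ^ (2 : ℝ)) (fun _ => 1) w =
        ENNReal.ofReal |(LinearMap.det A)⁻¹| * ∫⁻ u, f u ∂ν := by
    intro w hw T J hT A hA hdet
    rw [hG w hw T J hT]
    have hAm : Measurable A := (LinearMap.continuous_of_finiteDimensional A).measurable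
    have h1 : ∫⁻ x, f (T x) ∂μ = ∫⁻ u, f (A u) ∂ν := by
      have h2 : ∫⁻ u, (f ∘ A) u ∂(Measure.map Tsc μ) = ∫⁻ x, (f ∘ A) (Tsc x) ∂μ :=
        lintegral_map (hf.comp hAm) Tsc.continuous.measurable
      show _ = ∫⁻ u, (f ∘ A) u ∂(Measure.map Tsc μ)
      rw [h2]
      apply lintegral_congr
      intro x
      rw [hA]
      simp [Tsc]
    rw [h1, ← lintegral_map hf hAm, Measure.map_linearMap_addHaar_eq_smul_addHaar ν hdet,
      lintegral_smul_measure, smul_eq_mul]
  rw [hGA v hv Tv Jv hTv A rfl hdetA, hGA v' hv' Tv' Jv' hTv' B rfl hdetB, hGs]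
  have h9 : ENNReal.ofReal |(LinearMap.det A)⁻¹| * ENNReal.ofReal |(LinearMap.det B)⁻¹| ≤ 1 := by
    rw [← ENNReal.ofReal_mul (abs_nonneg _), ← ENNReal.ofReal_one]
    apply ENNReal.ofReal_le_ofReal
    rw [abs_inv, abs_inv, ← mul_inv]
    exact inv_le_one_of_one_le₀ hdet
  calc ENNReal.ofReal |(LinearMap.det A)⁻¹| * (∫⁻ u, f u ∂ν) *
        (ENNReal.ofReal |(LinearMap.det B)⁻¹| * ∫⁻ u, f u ∂ν)
      = (ENNReal.ofReal |(LinearMap.det A)⁻¹| * ENNReal.ofReal |(LinearMap.det B)⁻¹|) *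
        (∫⁻ u, f u ∂ν) ^ 2 := by ring
    _ ≤ 1 * (∫⁻ u, f u ∂ν) ^ 2 := by gcongr
    _ = _ := one_mul _


/-- shift of one coordinate -/
noncomputable def sh {n : ℕ} (v : Fin n → ℝ) (j : Fin n) (c : ℝ) : Fin n → ℝ :=
  fun i => v i + if i = j then c else 0

theorem exp_sh {E : Type*} {n : ℕ} (N : Fin n → E → ℝ) (v : Fin n → ℝ) (j : Fin n) (c : ℝ)
    (x : E) : ENNReal.ofReal (Real.exp (-∑ i, sh v j c i * N i x)) =
      ENNReal.ofReal (Real.exp (-∑ i, v i * N i x)) * ENNReal.ofReal (Real.exp (-(c * N j x))) := by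
  rw [← ENNReal.ofReal_mul (Real.exp_pos _).le, ← Real.exp_add]
  congr 2
  have : ∑ i, sh v j c i * N i x = ∑ i, v i * N i x + c * N j x := by
    unfold sh
    simp only [add_mul, Finset.sum_add_distrib, ite_mul, zero_mul, Finset.sum_ite_eq',
      Finset.mem_univ, if_true]
  rw [this]
  ring

theorem meas_exp {E : Type*} [MeasurableSpace E] {n : ℕ} (N : Fin n → E → ℝ)
    (hN : ∀ j, Measurable (N j)) (v : Fin n → ℝ) :
    Measurable fun x => ENNReal.ofReal (Real.exp (-∑ i, v i * N i x)) := by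
  refine ENNReal.measurable_ofReal.comp (Real.measurable_exp.comp (Measurable.neg ?_))
  exact Finset.measurable_fun_sum _ fun i _ => (hN i).const_mul (v i)

theorem lap_G {E : Type*} [MeasurableSpace E] (μ : Measure E) [SFinite μ] {n : ℕ}
    (N : Fin n → E → ℝ) (hN : ∀ j, Measurable (N j))
    (h : ℝ → ℝ≥0∞) (hh : Measurable h) (Φ : E → ℝ≥0∞) (m : Measurable Φ) (j : Fin n) (a : ℝ)
    (v : Fin n → ℝ) :
    G μ N (fun x => lap h (a * N j x) * Φ x) v =
      ∫⁻ s in Ioi (0 : ℝ), h s * G μ N Φ (sh v j (a * s)) := by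
  have hj := hN j
  have he := meas_exp N hN v
  calc G μ N (fun x => lap h (a * N j x) * Φ x) v
      = ∫⁻ x, (∫⁻ s in Ioi (0 : ℝ), ENNReal.ofReal (Real.exp (-∑ i, v i * N i x)) *
          (h s * ENNReal.ofReal (Real.exp (-(a * N j x * s))) * Φ x)) ∂μ := by
        unfold G lap
        refine lintegral_congr fun x => ?_
        rw [lintegral_const_mul, lintegral_mul_const]
        · exact hh.mul (ENNReal.measurable_ofReal.comp (by fun_prop))
        · exact (hh.mul (ENNReal.measurable_ofReal.comp (by fun_prop))).mul_const _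
    _ = ∫⁻ s in Ioi (0 : ℝ), (∫⁻ x, ENNReal.ofReal (Real.exp (-∑ i, v i * N i x)) *
          (h s * ENNReal.ofReal (Real.exp (-(a * N j x * s))) * Φ x) ∂μ) := by
        refine lintegral_lintegral_swap (Measurable.aemeasurable ?_)
        refine Measurable.mul (he.comp measurable_fst) (Measurable.mul (Measurable.mul
          (hh.comp measurable_snd) ?_) (m.comp measurable_fst))
        refine ENNReal.measurable_ofReal.comp (Real.measurable_exp.comp (Measurable.neg ?_))
        exact ((hj.comp measurable_fst).const_mul a).mul measurable_snd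
    _ = ∫⁻ s in Ioi (0 : ℝ), h s * G μ N Φ (sh v j (a * s)) := by
        refine lintegral_congr fun s => ?_
        unfold G
        rw [← lintegral_const_mul]
        · refine lintegral_congr fun x => ?_
          rw [exp_sh]
          have : a * N j x * s = a * s * N j x := by ring
          rw [this]
          ring
        · exact (meas_exp N hN _).mul m

theorem G_anti {E : Type*} [MeasurableSpace E] (μ : Measure E) {n : ℕ}
    (N : Fin n → E → ℝ) (hN0 : ∀ j x, 0 ≤ N j x) (Φ : E → ℝ≥0∞) (v w : Fin n → ℝ)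
    (hvw : ∀ i, v i ≤ w i) : G μ N Φ w ≤ G μ N Φ v := by
  unfold G
  refine lintegral_mono fun x => ?_
  have : ∑ i, v i * N i x ≤ ∑ i, w i * N i x :=
    Finset.sum_le_sum fun i _ => mul_le_mul_of_nonneg_right (hvw i) (hN0 i x)
  have h2 : ENNReal.ofReal (Real.exp (-∑ i, w i * N i x)) ≤
      ENNReal.ofReal (Real.exp (-∑ i, v i * N i x)) :=
    ENNReal.ofReal_le_ofReal (Real.exp_le_exp.2 (neg_le_neg this))
  exact mul_le_mul' h2 le_rfl

theorem meas_G_sh {E : Type*} [MeasurableSpace E] (μ : Measure E) [SFinite μ] {n : ℕ}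
    (N : Fin n → E → ℝ) (hN : ∀ j, Measurable (N j)) (Φ : E → ℝ≥0∞) (m : Measurable Φ)
    (j : Fin n) (a : ℝ) (v : Fin n → ℝ) :
    Measurable fun s => G μ N Φ (sh v j (a * s)) := by
  unfold G
  simp only [exp_sh]
  refine Measurable.lintegral_prod_right' (f := fun p : ℝ × E =>
    ENNReal.ofReal (Real.exp (-∑ i, v i * N i p.2)) *
      ENNReal.ofReal (Real.exp (-(a * p.1 * N j p.2))) * Φ p.2) ?_
  have he := meas_exp N hN v
  refine Measurable.mul (Measurable.mul (he.comp measurable_snd) ?_) (m.comp measurable_snd)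
  refine ENNReal.measurable_ofReal.comp (Real.measurable_exp.comp (Measurable.neg ?_))
  exact (measurable_fst.const_mul a).mul ((hN j).comp measurable_snd)

theorem sqrt_ineq {v v' a b x y : ℝ} (hv : 0 < v) (hv' : 0 < v') (ha : 0 < a) (hb : 0 < b)
    (hx : 0 < x) (hy : 0 < y) :
    Real.sqrt (v * v') + Real.sqrt (a * b) * Real.sqrt (x * y) ≤
      Real.sqrt ((v + a * x) * (v' + b * y)) := by
  have e1 : Real.sqrt (a * b) * Real.sqrt (x * y) = Real.sqrt (a * x) * Real.sqrt (b * y) := by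
    rw [← Real.sqrt_mul (by positivity), ← Real.sqrt_mul (by positivity)]
    congr 1
    ring
  rw [e1, Real.sqrt_mul hv.le]
  apply Real.le_sqrt_of_sq_le
  have h1 := Real.sq_sqrt hv.le
  have h2 := Real.sq_sqrt hv'.le
  have h3 := Real.sq_sqrt (show 0 ≤ a * x by positivity)
  have h4 := Real.sq_sqrt (show 0 ≤ b * y by positivity)
  generalize Real.sqrt v = p at *
  generalize Real.sqrt v' = p' at *
  generalize Real.sqrt (a * x) = q at *
  generalize Real.sqrt (b * y) = q' at *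
  rw [← h1, ← h2, ← h3, ← h4]
  nlinarith [sq_nonneg (p * q' - q * p')]

/-- J2: adding one Laplace factor preserves the inequality.  `pl` is the one-dimensional
multiplicative Prekopa-Leindler inequality. -/
theorem TP_step {E : Type*} [MeasurableSpace E] (μ : Measure E) [SFinite μ] {n : ℕ}
    (pl : ∀ (F G H : ℝ → ℝ≥0∞), Measurable F → Measurable G → Measurable H →
      (∀ x y, 0 < x → 0 < y → F x * G y ≤ H (Real.sqrt (x * y)) ^ 2) →
      (∫⁻ x in Ioi (0 : ℝ), F x) * (∫⁻ x in Ioi (0 : ℝ), G x) ≤ (∫⁻ x in Ioi (0 : ℝ), H x) ^ 2)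
    (N : Fin n → E → ℝ) (hN : ∀ j, Measurable (N j)) (hN0 : ∀ j x, 0 ≤ N j x)
    (h : ℝ → ℝ≥0∞) (hh : Measurable h)
    (hmul : ∀ s t, 0 < s → 0 < t → h s * h t ≤ h (Real.sqrt (s * t)) ^ 2)
    (Φ₁ Φ₂ Φ₃ : E → ℝ≥0∞) (m1 : Measurable Φ₁) (m2 : Measurable Φ₂) (m3 : Measurable Φ₃)
    (H : TP μ N Φ₁ Φ₂ Φ₃) (j : Fin n) (a b : ℝ) (ha : 0 < a) (hb : 0 < b) :
    TP μ N (fun x => lap h (a * N j x) * Φ₁ x) (fun x => lap h (b * N j x) * Φ₂ x)
      (fun x => lap h (Real.sqrt (a * b) * N j x) * Φ₃ x) := by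
  intro v v' hv hv'
  rw [lap_G μ N hN h hh Φ₁ m1, lap_G μ N hN h hh Φ₂ m2, lap_G μ N hN h hh Φ₃ m3]
  refine pl _ _ _ (hh.mul (meas_G_sh μ N hN Φ₁ m1 j a v)) (hh.mul (meas_G_sh μ N hN Φ₂ m2 j b v'))
    (hh.mul (meas_G_sh μ N hN Φ₃ m3 j _ _)) ?_
  intro x y hx hy
  have hshpos : ∀ (w : Fin n → ℝ) (c : ℝ), (∀ i, 0 < w i) → 0 < c → ∀ i, 0 < sh w j c i := by
    intro w c hw hc i
    unfold sh
    have := hw i
    split_ifs <;> linarith
  have h1 := H (sh v j (a * x)) (sh v' j (b * y)) (hshpos v _ hv (by positivity))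
    (hshpos v' _ hv' (by positivity))
  have h2 : G μ N Φ₃ (fun i => Real.sqrt (sh v j (a * x) i * sh v' j (b * y) i)) ≤
      G μ N Φ₃ (sh (fun i => Real.sqrt (v i * v' i)) j
        (Real.sqrt (a * b) * Real.sqrt (x * y))) := by
    refine G_anti μ N hN0 Φ₃ _ _ fun i => ?_
    unfold sh
    by_cases hi : i = j
    · subst hi
      simp only [if_true]
      exact sqrt_ineq (hv i) (hv' i) ha hb hx hy
    · simp only [if_neg hi, add_zero]
      exact le_rfl
  calc h x * G μ N Φ₁ (sh v j (a * x)) * (h y * G μ N Φ₂ (sh v' j (b * y)))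
      = (h x * h y) * (G μ N Φ₁ (sh v j (a * x)) * G μ N Φ₂ (sh v' j (b * y))) := by ring
    _ ≤ h (Real.sqrt (x * y)) ^ 2 *
        (G μ N Φ₃ (fun i => Real.sqrt (sh v j (a * x) i * sh v' j (b * y) i))) ^ 2 :=
        mul_le_mul' (hmul x y hx hy) h1
    _ ≤ h (Real.sqrt (x * y)) ^ 2 *
        (G μ N Φ₃ (sh (fun i => Real.sqrt (v i * v' i)) j
          (Real.sqrt (a * b) * Real.sqrt (x * y)))) ^ 2 :=
        mul_le_mul' le_rfl (pow_le_pow_left' h2 2)
    _ = _ := by rw [← mul_pow]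


theorem iSup_exp_aux (c : ℝ) (hc : 0 ≤ c) :
    ⨆ m : ℕ, ENNReal.ofReal (Real.exp (-((1 / ((m : ℝ) + 1)) * c))) = 1 := by
  refine iSup_eq_of_tendsto ?_ ?_
  · intro a b hab
    refine ENNReal.ofReal_le_ofReal (Real.exp_le_exp.2 ?_)
    have h1 : (1 : ℝ) / ((b : ℝ) + 1) ≤ 1 / ((a : ℝ) + 1) := by
      refine one_div_le_one_div_of_le (by positivity) ?_
      have : (a : ℝ) ≤ b := by exact_mod_cast hab
      linarith
    have h2 := mul_le_mul_of_nonneg_right h1 hc
    linarith
  · have h1 : Tendsto (fun m : ℕ => (1 : ℝ) / ((m : ℝ) + 1)) atTop (𝓝 0) :=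
      tendsto_one_div_add_atTop_nhds_zero_nat
    have h2 : Tendsto (fun m : ℕ => Real.exp (-((1 / ((m : ℝ) + 1)) * c))) atTop
        (𝓝 (Real.exp (-(0 * c)))) :=
      (Real.continuous_exp.tendsto _).comp ((h1.mul_const c).neg)
    have h3 := ENNReal.tendsto_ofReal h2
    simpa using h3

theorem lintegral_eq_iSup_G {E : Type*} [MeasurableSpace E] (μ : Measure E) {n : ℕ}
    (N : Fin n → E → ℝ) (hN : ∀ j, Measurable (N j)) (hN0 : ∀ j x, 0 ≤ N j x)
    (Φ : E → ℝ≥0∞) (m1 : Measurable Φ) :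
    ∫⁻ x, Φ x ∂μ = ⨆ m : ℕ, G μ N Φ (fun _ => 1 / ((m : ℝ) + 1)) := by
  unfold G
  rw [← lintegral_iSup]
  · refine lintegral_congr fun x => ?_
    rw [← ENNReal.iSup_mul]
    have h := iSup_exp_aux (∑ j, N j x) (Finset.sum_nonneg fun j _ => hN0 j x)
    have h2 : (fun m : ℕ => ENNReal.ofReal (Real.exp (-∑ j, (1 / ((m : ℝ) + 1)) * N j x))) =
        fun m : ℕ => ENNReal.ofReal (Real.exp (-((1 / ((m : ℝ) + 1)) * ∑ j, N j x))) := by
      funext m
      rw [Finset.mul_sum]
    rw [h2, h, one_mul]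
  · intro m
    refine Measurable.mul (Measurable.ennreal_ofReal (Real.measurable_exp.comp ?_)) m1
    exact (Finset.measurable_sum _ fun j _ => (hN j).const_mul _).neg
  · intro a b hab x
    refine mul_le_mul_left (ENNReal.ofReal_le_ofReal (Real.exp_le_exp.2 ?_)) _
    refine neg_le_neg (Finset.sum_le_sum fun j _ => mul_le_mul_of_nonneg_right ?_ (hN0 j x))
    refine one_div_le_one_div_of_le (by positivity) ?_
    have : (a : ℝ) ≤ b := by exact_mod_cast hab
    linarith

theorem G_mono {E : Type*} [MeasurableSpace E] (μ : Measure E) {n : ℕ}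
    (N : Fin n → E → ℝ) (hN0 : ∀ j x, 0 ≤ N j x)
    (Φ : E → ℝ≥0∞) {a b : ℕ} (hab : a ≤ b) :
    G μ N Φ (fun _ => 1 / ((a : ℝ) + 1)) ≤ G μ N Φ (fun _ => 1 / ((b : ℝ) + 1)) := by
  unfold G
  refine lintegral_mono fun x => ?_
  refine mul_le_mul_left (ENNReal.ofReal_le_ofReal (Real.exp_le_exp.2 ?_)) _
  refine neg_le_neg (Finset.sum_le_sum fun j _ => mul_le_mul_of_nonneg_right ?_ (hN0 j x))
  refine one_div_le_one_div_of_le (by positivity) ?_
  have : (a : ℝ) ≤ b := by exact_mod_cast hab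
  linarith

/-- J3: letting the weights tend to zero -/
theorem TP_zero {E : Type*} [MeasurableSpace E] (μ : Measure E) {n : ℕ}
    (N : Fin n → E → ℝ) (hN : ∀ j, Measurable (N j)) (hN0 : ∀ j x, 0 ≤ N j x)
    (Φ₁ Φ₂ Φ₃ : E → ℝ≥0∞) (m1 : Measurable Φ₁) (m2 : Measurable Φ₂) (m3 : Measurable Φ₃)
    (H : TP μ N Φ₁ Φ₂ Φ₃) :
    (∫⁻ x, Φ₁ x ∂μ) * (∫⁻ x, Φ₂ x ∂μ) ≤ (∫⁻ x, Φ₃ x ∂μ) ^ 2 := by
  have key : ∀ m : ℕ, G μ N Φ₁ (fun _ => 1 / ((m : ℝ) + 1)) *
      G μ N Φ₂ (fun _ => 1 / ((m : ℝ) + 1)) ≤ (∫⁻ x, Φ₃ x ∂μ) ^ 2 := by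
    intro m
    have hp : (0 : ℝ) < 1 / ((m : ℝ) + 1) := by positivity
    refine (H _ _ (fun _ => hp) (fun _ => hp)).trans ?_
    refine pow_le_pow_left' ?_ 2
    unfold G
    refine lintegral_mono fun x => ?_
    have h1 : ENNReal.ofReal (Real.exp (-∑ j,
        Real.sqrt (1 / ((m : ℝ) + 1) * (1 / ((m : ℝ) + 1))) * N j x)) ≤ 1 := by
      rw [← ENNReal.ofReal_one]
      refine ENNReal.ofReal_le_ofReal (Real.exp_le_one_iff.2 ?_)
      exact neg_nonpos.2 (Finset.sum_nonneg fun j _ => mul_nonneg (Real.sqrt_nonneg _) (hN0 j x))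
    calc _ ≤ 1 * Φ₃ x := mul_le_mul_left h1 _
      _ = Φ₃ x := one_mul _
  rw [lintegral_eq_iSup_G μ N hN hN0 Φ₁ m1, lintegral_eq_iSup_G μ N hN hN0 Φ₂ m2,
    ENNReal.iSup_mul]
  refine iSup_le fun i => ?_
  rw [ENNReal.mul_iSup]
  refine iSup_le fun j => ?_
  refine le_trans ?_ (key (max i j))
  exact mul_le_mul' (G_mono μ N hN0 Φ₁ (le_max_left i j)) (G_mono μ N hN0 Φ₂ (le_max_right i j))


/-- J4: the Pareto density is log-linear in multiplicative coordinates on `[1, ∞)` -/
theorem pareto_mul (α : ℝ) (hα : 0 < α) (s t : ℝ) (hs : 0 < s) (ht : 0 < t) :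
    pareto α s * pareto α t ≤ pareto α (Real.sqrt (s * t)) ^ 2 := by
  unfold pareto
  by_cases h1 : 1 ≤ s
  · by_cases h2 : 1 ≤ t
    · have hst : 1 ≤ s * t := one_le_mul_of_one_le_of_one_le h1 h2
      have h3 : 1 ≤ Real.sqrt (s * t) := Real.one_le_sqrt.2 hst
      have h0 : 0 < s * t := by positivity
      rw [if_pos h1, if_pos h2, if_pos h3, ← ENNReal.ofReal_mul (by positivity),
        ← ENNReal.ofReal_pow (by positivity)]
      apply ENNReal.ofReal_le_ofReal
      apply le_of_eq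
      have e : (Real.sqrt (s * t) ^ (-1 - α)) ^ 2 = s ^ (-1 - α) * t ^ (-1 - α) := by
        rw [← Real.mul_rpow hs.le ht.le, pow_two, ← Real.mul_rpow (Real.sqrt_nonneg _)
          (Real.sqrt_nonneg _), Real.mul_self_sqrt h0.le]
      rw [mul_pow, e]
      ring
    · rw [if_neg h2, mul_zero]
      exact zero_le
  · rw [if_neg h1, zero_mul]
    exact zero_le

theorem measurable_pareto (α : ℝ) : Measurable (pareto α) := by
  unfold pareto
  apply Measurable.ite measurableSet_Ici _ measurable_const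
  exact ((measurable_id.pow_const _).const_mul α).ennreal_ofReal

theorem pareto_tail (α : ℝ) (hα : 0 < α) (c : ℝ) (hc : 0 < c) :
    ∫⁻ s in Ioi c, ENNReal.ofReal (α * s ^ (-1 - α)) = ENNReal.ofReal (c ^ (-α)) := by
  have hint : IntegrableOn (fun s : ℝ => s ^ (-1 - α)) (Ioi c) :=
    integrableOn_Ioi_rpow_of_lt (by linarith) hc
  rw [← ofReal_integral_eq_lintegral_ofReal]
  · rw [integral_const_mul, integral_Ioi_rpow_of_lt (by linarith) hc]
    congr 1
    have : -1 - α + 1 = -α := by ring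
    rw [this]
    field_simp
  · exact hint.const_mul α
  · rw [Filter.EventuallyLE, ae_restrict_iff' measurableSet_Ioi]
    refine Filter.Eventually.of_forall fun s hs => ?_
    have : 0 < s := lt_trans hc hs
    show 0 ≤ α * s ^ (-1 - α)
    positivity

theorem lap_pareto_split (α : ℝ) (hα : 0 < α) (l : ℝ) (hl : 0 ≤ l) (c : ℝ) (hc : 1 ≤ c) :
    lap (pareto α) l ≤ ENNReal.ofReal (1 - c ^ (-α) + Real.exp (-(l * c)) * c ^ (-α)) := by
  have hc0 : 0 < c := by linarith
  have hcα : c ^ (-α) ≤ 1 := Real.rpow_le_one_of_one_le_of_nonpos hc (by linarith)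
  have hcα0 : 0 ≤ c ^ (-α) := by positivity
  have h1 : lap (pareto α) l ≤ ∫⁻ s in Ioi (1 : ℝ), ENNReal.ofReal (α * s ^ (-1 - α)) *
      ENNReal.ofReal (Real.exp (-(l * s))) := by
    unfold lap
    rw [← lintegral_indicator measurableSet_Ioi, ← lintegral_indicator measurableSet_Ioi]
    apply lintegral_mono_ae
    have hne : ∀ᵐ s : ℝ, s ≠ 1 := by
      rw [ae_iff]
      simp
    filter_upwards [hne] with s hs
    by_cases h2 : s ∈ Ioi (1 : ℝ)
    · have h3 : s ∈ Ioi (0 : ℝ) := by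
        show 0 < s
        have : 1 < s := h2
        linarith
      rw [indicator_of_mem h2, indicator_of_mem h3]
      unfold pareto
      rw [if_pos (le_of_lt h2)]
    · rw [indicator_of_notMem h2]
      by_cases h3 : s ∈ Ioi (0 : ℝ)
      · rw [indicator_of_mem h3]
        unfold pareto
        rw [if_neg, zero_mul]
        intro h4
        exact h2 (lt_of_le_of_ne h4 (Ne.symm hs))
      · rw [indicator_of_notMem h3]
  refine h1.trans ?_
  have hun : Ioi (1 : ℝ) = Ioc 1 c ∪ Ioi c := (Ioc_union_Ioi_eq_Ioi hc).symm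
  have hdis : Disjoint (Ioc (1 : ℝ) c) (Ioi c) := by
    rw [Set.disjoint_left]
    intro x hx hx'
    exact absurd hx.2 (not_le.2 hx')
  have htot : ∫⁻ s in Ioc (1 : ℝ) c, ENNReal.ofReal (α * s ^ (-1 - α)) =
      ENNReal.ofReal (1 - c ^ (-α)) := by
    have e1 := pareto_tail α hα 1 one_pos
    rw [hun, lintegral_union measurableSet_Ioi hdis, pareto_tail α hα c hc0, Real.one_rpow] at e1
    rw [ENNReal.ofReal_sub _ hcα0]
    exact ENNReal.eq_sub_of_add_eq ENNReal.ofReal_ne_top e1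
  rw [hun, lintegral_union measurableSet_Ioi hdis, ENNReal.ofReal_add (by linarith) (by positivity)]
  apply add_le_add
  · rw [← htot]
    apply setLIntegral_mono' measurableSet_Ioc
    intro s hs
    have h2 : ENNReal.ofReal (Real.exp (-(l * s))) ≤ 1 := by
      rw [ENNReal.ofReal_le_one]
      apply Real.exp_le_one_iff.2
      have : 0 ≤ l * s := mul_nonneg hl (by linarith [hs.1])
      linarith
    calc ENNReal.ofReal (α * s ^ (-1 - α)) * ENNReal.ofReal (Real.exp (-(l * s))) ≤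
        ENNReal.ofReal (α * s ^ (-1 - α)) * 1 := by gcongr
      _ = _ := mul_one _
  · rw [ENNReal.ofReal_mul (Real.exp_pos _).le, ← pareto_tail α hα c hc0]
    have hmm : Measurable (fun s : ℝ => ENNReal.ofReal (α * s ^ (-1 - α))) :=
      ((measurable_id.pow_const _).const_mul α).ennreal_ofReal
    rw [← lintegral_const_mul _ hmm]
    apply setLIntegral_mono' measurableSet_Ioi
    intro s hs
    rw [mul_comm]
    have hs' : c < s := hs
    have h2 : Real.exp (-(l * s)) ≤ Real.exp (-(l * c)) := by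
      apply Real.exp_le_exp.2
      nlinarith
    gcongr

/-- J4: upper bound for the Laplace transform of the Pareto law -/
theorem lap_pareto_le (α : ℝ) (hα : 0 < α) (hα1 : α < 1) (l : ℝ) (hl : 0 ≤ l) :
    lap (pareto α) l ≤ ENNReal.ofReal (1 / (1 + l ^ α / 2)) := by
  rcases le_total l 1 with h | h
  · rcases hl.eq_or_lt with h0 | h0
    · refine (lap_pareto_split α hα l hl 1 le_rfl).trans ?_
      apply ENNReal.ofReal_le_ofReal
      rw [← h0, Real.zero_rpow hα.ne']
      simp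
    · have hc : 1 ≤ 1 / l := by
        rw [le_div_iff₀ h0]
        linarith
      refine (lap_pareto_split α hα l hl (1 / l) hc).trans ?_
      apply ENNReal.ofReal_le_ofReal
      have e1 : (1 / l) ^ (-α) = l ^ α := by
        rw [one_div, Real.inv_rpow h0.le, Real.rpow_neg h0.le, inv_inv]
      have e2 : l * (1 / l) = 1 := by field_simp
      rw [e1, e2]
      have hx0 : 0 ≤ l ^ α := by positivity
      have he : Real.exp (-1) ≤ 1 / 2 := by
        rw [Real.exp_neg, ← one_div]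
        apply one_div_le_one_div_of_le (by norm_num)
        have := Real.add_one_le_exp (1 : ℝ)
        linarith
      have he0 := Real.exp_pos (-1)
      rw [le_div_iff₀ (by positivity)]
      nlinarith [mul_nonneg hx0 hx0]
  · refine (lap_pareto_split α hα l hl 1 le_rfl).trans ?_
    apply ENNReal.ofReal_le_ofReal
    rw [Real.one_rpow, mul_one, mul_one]
    have h1 : l ^ α ≤ l := by
      conv_rhs => rw [← Real.rpow_one l]
      exact Real.rpow_le_rpow_of_exponent_le h hα1.le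
    have h2 : Real.exp (-l) ≤ 1 / (1 + l) := by
      rw [Real.exp_neg, ← one_div]
      apply one_div_le_one_div_of_le (by linarith)
      have := Real.add_one_le_exp l
      linarith
    have h3 : 1 / (1 + l) ≤ 1 / (1 + l ^ α / 2) := by
      apply one_div_le_one_div_of_le
      · positivity
      · have : 0 ≤ l ^ α := by positivity
        linarith
    linarith


/-- the integrand of `C` -/
noncomputable def ck (α r : ℝ) : ℝ := α * r ^ (-1 - α) * (1 - Real.exp (-r))

theorem ck_nonneg (α : ℝ) (hα : 0 < α) (r : ℝ) (hr : 0 < r) : 0 < ck α r := by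
  unfold ck
  have h1 : 0 < r ^ (-1 - α) := Real.rpow_pos_of_pos hr _
  have h2 : Real.exp (-r) < 1 := by
    rw [← Real.exp_zero]
    exact Real.exp_lt_exp.mpr (by linarith)
  have h3 : 0 < 1 - Real.exp (-r) := by linarith
  positivity

theorem ck_int (α : ℝ) (hα : 0 < α) (hα1 : α < 1) : IntegrableOn (ck α) (Ioi 0) := by
  have hm : Measurable (ck α) := by
    unfold ck
    fun_prop
  have h1 : IntegrableOn (ck α) (Ioc 0 1) := by
    have h2 : IntegrableOn (fun r : ℝ => α * r ^ (-α)) (Ioc 0 1) := by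
      have h3 := intervalIntegral.intervalIntegrable_rpow' (a := (0 : ℝ)) (b := 1)
        (show -1 < -α by linarith)
      rw [intervalIntegrable_iff_integrableOn_Ioc_of_le zero_le_one] at h3
      exact h3.const_mul α
    refine Integrable.mono' h2 hm.aestronglyMeasurable ?_
    rw [ae_restrict_iff' measurableSet_Ioc]
    refine Eventually.of_forall (fun r hr => ?_)
    have hr0 : 0 < r := hr.1
    rw [Real.norm_of_nonneg (ck_nonneg α hα r hr0).le]
    unfold ck
    have h4 : r ^ (-α) = r ^ (-1 - α) * r := by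
      rw [show -α = (-1 - α) + 1 by ring, Real.rpow_add hr0, Real.rpow_one]
    rw [h4]
    have h5 : 1 - Real.exp (-r) ≤ r := by
      have := Real.add_one_le_exp (-r)
      linarith
    have h6 : 0 < r ^ (-1 - α) := Real.rpow_pos_of_pos hr0 _
    calc α * r ^ (-1 - α) * (1 - Real.exp (-r)) ≤ α * r ^ (-1 - α) * r :=
          mul_le_mul_of_nonneg_left h5 (by positivity)
      _ = _ := by ring
  have h2 : IntegrableOn (ck α) (Ioi 1) := by
    have h3 : IntegrableOn (fun r : ℝ => α * r ^ (-1 - α)) (Ioi 1) :=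
      (integrableOn_Ioi_rpow_of_lt (by linarith) zero_lt_one).const_mul α
    refine Integrable.mono' h3 hm.aestronglyMeasurable ?_
    rw [ae_restrict_iff' measurableSet_Ioi]
    refine Eventually.of_forall (fun r hr => ?_)
    have hr0 : 0 < r := lt_trans zero_lt_one hr
    rw [Real.norm_of_nonneg (ck_nonneg α hα r hr0).le]
    unfold ck
    have h6 : 0 < r ^ (-1 - α) := Real.rpow_pos_of_pos hr0 _
    have h7 := Real.exp_pos (-r)
    calc α * r ^ (-1 - α) * (1 - Real.exp (-r)) ≤ α * r ^ (-1 - α) * 1 :=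
          mul_le_mul_of_nonneg_left (by linarith) (by positivity)
      _ = _ := by ring
  have h3 : Ioi (0 : ℝ) = Ioc 0 1 ∪ Ioi 1 := (Ioc_union_Ioi_eq_Ioi zero_le_one).symm
  rw [h3]
  exact h1.union h2

theorem C_pos (α : ℝ) (hα : 0 < α) (hα1 : α < 1) : 0 < C α := by
  have h := ck_int α hα hα1
  have h0 : 0 ≤ᵐ[volume.restrict (Ioi 0)] ck α := by
    rw [EventuallyLE, ae_restrict_iff' measurableSet_Ioi]
    exact Eventually.of_forall (fun r hr => (ck_nonneg α hα r hr).le)
  show 0 < ∫ r in Ioi (0 : ℝ), ck α r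
  rw [setIntegral_pos_iff_support_of_nonneg_ae h0 h]
  have h2 : Function.support (ck α) ∩ Ioi 0 = Ioi 0 := by
    ext r
    constructor
    · exact fun h => h.2
    · intro hr
      exact ⟨(ck_nonneg α hα r hr).ne', hr⟩
  rw [h2, Real.volume_Ioi]
  exact ENNReal.zero_lt_top

/-- the Laplace transform of the Pareto law as a real integral -/
noncomputable def pJ (α l : ℝ) : ℝ := ∫ s in Ioi (1 : ℝ), α * s ^ (-1 - α) * Real.exp (-(l * s))

theorem pJ_int (α l : ℝ) (hα : 0 < α) (hl : 0 ≤ l) :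
    IntegrableOn (fun s : ℝ => α * s ^ (-1 - α) * Real.exp (-(l * s))) (Ioi 1) := by
  have h3 : IntegrableOn (fun r : ℝ => α * r ^ (-1 - α)) (Ioi 1) :=
    (integrableOn_Ioi_rpow_of_lt (by linarith) zero_lt_one).const_mul α
  refine Integrable.mono' h3 (Measurable.aestronglyMeasurable (by fun_prop)) ?_
  rw [ae_restrict_iff' measurableSet_Ioi]
  refine Eventually.of_forall (fun r hr => ?_)
  have hr0 : 0 < r := lt_trans zero_lt_one hr
  have h6 : 0 < r ^ (-1 - α) := Real.rpow_pos_of_pos hr0 _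
  have h7 := Real.exp_pos (-(l * r))
  have h8 : Real.exp (-(l * r)) ≤ 1 := Real.exp_le_one_iff.mpr (by nlinarith)
  rw [Real.norm_of_nonneg (by positivity)]
  calc α * r ^ (-1 - α) * Real.exp (-(l * r)) ≤ α * r ^ (-1 - α) * 1 :=
        mul_le_mul_of_nonneg_left h8 (by positivity)
    _ = _ := by ring

theorem pJ_nonneg (α l : ℝ) (hα : 0 < α) : 0 ≤ pJ α l := by
  unfold pJ
  refine setIntegral_nonneg measurableSet_Ioi (fun r hr => ?_)
  have hr0 : 0 < r := lt_trans zero_lt_one hr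
  have h6 : 0 < r ^ (-1 - α) := Real.rpow_pos_of_pos hr0 _
  positivity

theorem lap_eq (α l : ℝ) (hα : 0 < α) (hl : 0 ≤ l) :
    lap (pareto α) l = ENNReal.ofReal (pJ α l) := by
  unfold lap pJ
  rw [ofReal_integral_eq_lintegral_ofReal (pJ_int α l hα hl)]
  · have h1 : ∀ s : ℝ, pareto α s * ENNReal.ofReal (Real.exp (-(l * s))) =
        (Ici (1 : ℝ)).indicator
          (fun s => ENNReal.ofReal (α * s ^ (-1 - α) * Real.exp (-(l * s)))) s := by
      intro s
      unfold pareto
      by_cases hs : 1 ≤ s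
      · rw [if_pos hs, Set.indicator_of_mem (mem_Ici.mpr hs)]
        have hr0 : 0 < s := lt_of_lt_of_le zero_lt_one hs
        have h6 : 0 < s ^ (-1 - α) := Real.rpow_pos_of_pos hr0 _
        rw [← ENNReal.ofReal_mul (by positivity)]
      · rw [if_neg hs, Set.indicator_of_notMem (by simpa using hs), zero_mul]
    simp_rw [h1]
    rw [lintegral_indicator measurableSet_Ici, Measure.restrict_restrict measurableSet_Ici]
    have h2 : Ici (1 : ℝ) ∩ Ioi 0 = Ici 1 := by
      ext s
      constructor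
      · exact fun h => h.1
      · intro hs
        have hs1 : (1 : ℝ) ≤ s := hs
        exact ⟨hs, mem_Ioi.mpr (by linarith)⟩
    rw [h2]
    exact setLIntegral_congr Ioi_ae_eq_Ici.symm
  · rw [EventuallyLE, ae_restrict_iff' measurableSet_Ioi]
    refine Eventually.of_forall (fun r hr => ?_)
    have hr0 : 0 < r := lt_trans zero_lt_one hr
    have h6 : 0 < r ^ (-1 - α) := Real.rpow_pos_of_pos hr0 _
    show 0 ≤ α * r ^ (-1 - α) * Real.exp (-(l * r))
    positivity

theorem pareto_mass (α : ℝ) (hα : 0 < α) : ∫ s in Ioi (1 : ℝ), α * s ^ (-1 - α) = 1 := by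
  rw [integral_const_mul, integral_Ioi_rpow_of_lt (by linarith) zero_lt_one, Real.one_rpow]
  have : -1 - α + 1 = -α := by ring
  rw [this]
  field_simp

theorem pJ_zero (α : ℝ) (hα : 0 < α) : pJ α 0 = 1 := by
  unfold pJ
  refine Eq.trans ?_ (pareto_mass α hα)
  refine setIntegral_congr_fun measurableSet_Ioi (fun s _ => ?_)
  simp

theorem pJ_eq (α l : ℝ) (hα : 0 < α) (hl : 0 < l) :
    pJ α l = 1 + -(l ^ α * ∫ r in Ioi l, ck α r) := by
  have h1 : ∫ s in Ioi (1 : ℝ), ck α (l * s) = l⁻¹ • ∫ r in Ioi (l * 1), ck α r :=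
    integral_comp_mul_left_Ioi (ck α) 1 hl
  rw [mul_one, smul_eq_mul] at h1
  have h2 : ∀ s ∈ Ioi (1 : ℝ), α * s ^ (-1 - α) * Real.exp (-(l * s)) =
      α * s ^ (-1 - α) - l ^ (1 + α) * ck α (l * s) := by
    intro s hs
    have hr0 : 0 < s := lt_trans zero_lt_one hs
    unfold ck
    rw [Real.mul_rpow hl.le hr0.le]
    have h3 : l ^ (1 + α) * l ^ (-1 - α) = 1 := by
      rw [← Real.rpow_add hl]
      ring_nf
      exact Real.rpow_zero l
    have h4 : l ^ (1 + α) * (α * (l ^ (-1 - α) * s ^ (-1 - α)) * (1 - Real.exp (-(l * s)))) =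
        (l ^ (1 + α) * l ^ (-1 - α)) * (α * s ^ (-1 - α) * (1 - Real.exp (-(l * s)))) := by ring
    rw [h4, h3]
    ring
  unfold pJ
  rw [setIntegral_congr_fun measurableSet_Ioi h2]
  have hi1 : IntegrableOn (fun r : ℝ => α * r ^ (-1 - α)) (Ioi 1) :=
    (integrableOn_Ioi_rpow_of_lt (by linarith) zero_lt_one).const_mul α
  have hi2 : IntegrableOn (fun s : ℝ => l ^ (1 + α) * ck α (l * s)) (Ioi 1) := by
    have h4 : IntegrableOn (fun s : ℝ => α * s ^ (-1 - α) -
        α * s ^ (-1 - α) * Real.exp (-(l * s))) (Ioi 1) := hi1.sub (pJ_int α l hα hl.le)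
    refine h4.congr_fun (fun s hs => ?_) measurableSet_Ioi
    have := h2 s hs
    show α * s ^ (-1 - α) - α * s ^ (-1 - α) * Real.exp (-(l * s)) = l ^ (1 + α) * ck α (l * s)
    linarith
  rw [integral_sub hi1 hi2, pareto_mass α hα, integral_const_mul, h1]
  have h5 : l ^ (1 + α) = l * l ^ α := by
    rw [Real.rpow_add hl, Real.rpow_one]
  rw [h5]
  field_simp
  ring

theorem ck_tendsto (α : ℝ) (hα : 0 < α) (hα1 : α < 1) (l : ℕ → ℝ) (hl0 : ∀ m, 0 ≤ l m)
    (hl : Tendsto l atTop (𝓝 0)) :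
    Tendsto (fun m => ∫ r in Ioi (l m), ck α r) atTop (𝓝 (C α)) := by
  have h1 : ∀ m, ∫ r in Ioi (l m), ck α r =
      ∫ r in Ioi (0 : ℝ), (Ioi (l m)).indicator (ck α) r := by
    intro m
    rw [setIntegral_indicator measurableSet_Ioi, Ioi_inter_Ioi, sup_eq_right.mpr (hl0 m)]
  simp_rw [h1]
  have hint := ck_int α hα hα1
  have hCe : C α = ∫ r in Ioi (0 : ℝ), ck α r := rfl
  rw [hCe]
  refine tendsto_integral_of_dominated_convergence (fun r => ‖ck α r‖) ?_ hint.norm ?_ ?_
  · intro m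
    exact hint.aestronglyMeasurable.indicator measurableSet_Ioi
  · intro m
    exact Eventually.of_forall (fun r => norm_indicator_le_norm_self _ _)
  · rw [ae_restrict_iff' measurableSet_Ioi]
    refine Eventually.of_forall (fun r hr => ?_)
    have hr0 : (0 : ℝ) < r := hr
    refine tendsto_const_nhds.congr' ?_
    filter_upwards [hl.eventually (gt_mem_nhds hr0)] with m hm
    rw [Set.indicator_of_mem (mem_Ioi.mpr hm)]


/-- J5: sums of independent Pareto variables converge to the stable law -/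
theorem lap_pareto_tendsto (α : ℝ) (hα : 0 < α) (hα1 : α < 1) (y : ℝ) (hy : 0 ≤ y) :
    Tendsto (fun m : ℕ => (lap (pareto α) (y ^ (1 / α) * (m : ℝ) ^ (-(1 / α)))) ^ m) atTop
      (𝓝 (ENNReal.ofReal (Real.exp (-(C α * y))))) := by
  have hl0 : ∀ m : ℕ, 0 ≤ y ^ (1 / α) * (m : ℝ) ^ (-(1 / α)) := fun m =>
    mul_nonneg (Real.rpow_nonneg hy _) (Real.rpow_nonneg (Nat.cast_nonneg m) _)
  have h1 : ∀ m : ℕ, (lap (pareto α) (y ^ (1 / α) * (m : ℝ) ^ (-(1 / α)))) ^ m =
      ENNReal.ofReal ((pJ α (y ^ (1 / α) * (m : ℝ) ^ (-(1 / α)))) ^ m) := by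
    intro m
    rw [lap_eq α _ hα (hl0 m), ENNReal.ofReal_pow (pJ_nonneg α _ hα)]
  simp_rw [h1]
  refine ENNReal.tendsto_ofReal ?_
  rcases eq_or_lt_of_le hy with h0 | h0
  · rw [← h0]
    have hα' : (1 / α) ≠ 0 := by positivity
    simp only [Real.zero_rpow hα', zero_mul, pJ_zero α hα, one_pow, mul_zero, neg_zero,
      Real.exp_zero]
    exact tendsto_const_nhds
  · have hlim0 : Tendsto (fun m : ℕ => y ^ (1 / α) * (m : ℝ) ^ (-(1 / α))) atTop (𝓝 0) := by
      have h2 : Tendsto (fun m : ℕ => (m : ℝ) ^ (-(1 / α))) atTop (𝓝 0) :=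
        (tendsto_rpow_neg_atTop (by positivity)).comp tendsto_natCast_atTop_atTop
      simpa using h2.const_mul (y ^ (1 / α))
    have h3 := ck_tendsto α hα hα1 _ hl0 hlim0
    have h4 : Tendsto (fun m : ℕ => (1 + -((y ^ (1 / α) * (m : ℝ) ^ (-(1 / α))) ^ α *
        ∫ r in Ioi (y ^ (1 / α) * (m : ℝ) ^ (-(1 / α))), ck α r)) ^ m) atTop
        (𝓝 (Real.exp (-(C α * y)))) := by
      refine Real.tendsto_one_add_pow_exp_of_tendsto ?_
      have h5 : Tendsto (fun m : ℕ => -(y *
          ∫ r in Ioi (y ^ (1 / α) * (m : ℝ) ^ (-(1 / α))), ck α r)) atTop (𝓝 (-(C α * y))) := by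
        have := (h3.const_mul y).neg
        rwa [mul_comm y (C α)] at this
      refine h5.congr' ?_
      filter_upwards [eventually_gt_atTop 0] with m hm
      have hm0 : (0 : ℝ) < m := by exact_mod_cast hm
      have h6 : (y ^ (1 / α) * (m : ℝ) ^ (-(1 / α))) ^ α = y * (m : ℝ)⁻¹ := by
        rw [Real.mul_rpow (Real.rpow_nonneg hy _) (Real.rpow_nonneg hm0.le _),
          ← Real.rpow_mul hy, ← Real.rpow_mul hm0.le]
        have e1 : 1 / α * α = 1 := by field_simp
        have e2 : -(1 / α) * α = -1 := by field_simp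
        rw [e1, e2, Real.rpow_one, Real.rpow_neg_one]
      rw [h6]
      field_simp
    refine h4.congr' ?_
    filter_upwards [eventually_gt_atTop 0] with m hm
    have hm0 : (0 : ℝ) < m := by exact_mod_cast hm
    rw [pJ_eq α _ hα (mul_pos (Real.rpow_pos_of_pos h0 _) (Real.rpow_pos_of_pos hm0 _))]


theorem one_add_rpow_le (t q : ℝ) (ht : 0 ≤ t) (hq : 0 < q) :
    (1 + t) ^ q ≤ 2 ^ q * (1 + t ^ q) := by
  have h1 : (1 + t) ≤ 2 * max 1 t := by
    have h2 := le_max_left 1 t
    have h3 := le_max_right 1 t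
    linarith
  have h4 : (1 + t) ^ q ≤ (2 * max 1 t) ^ q :=
    Real.rpow_le_rpow (by linarith) h1 hq.le
  refine h4.trans ?_
  rw [Real.mul_rpow (by norm_num) (le_trans zero_le_one (le_max_left 1 t))]
  refine mul_le_mul_of_nonneg_left ?_ (by positivity)
  rcases max_choice 1 t with h | h
  · rw [h, Real.one_rpow]
    have := Real.rpow_nonneg ht q
    linarith
  · rw [h]
    linarith

/-- J6: integrability of the dominating function -/
theorem dom_finite {E : Type*} [NormedAddCommGroup E] [NormedSpace ℝ E] [FiniteDimensional ℝ E]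
    [MeasurableSpace E] [BorelSpace E] (μ : Measure E) [μ.IsAddHaarMeasure] {n : ℕ}
    (L : E →ₗ[ℝ] (Fin n → ℝ)) (hL : Function.Injective L) (q : ℝ) (hq : 0 < q)
    (c : Fin n → ℝ) (hc : ∀ j, 0 < c j) :
    ∃ K₀ : ℕ, ∀ K : ℕ, K₀ ≤ K →
      ∫⁻ x, ∏ j, ENNReal.ofReal (1 / (1 + c j * |L x j| ^ q / K)) ^ K ∂μ ≠ ∞ := by
  classical
  obtain ⟨K₀, hK₀⟩ := exists_nat_gt ((Module.finrank ℝ E : ℝ) / q)
  refine ⟨K₀, fun K hK => ?_⟩
  have hKq : (Module.finrank ℝ E : ℝ) < q * K := by
    have h1 : (K₀ : ℝ) ≤ K := by exact_mod_cast hK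
    have h2 : (Module.finrank ℝ E : ℝ) / q < K := lt_of_lt_of_le hK₀ h1
    rw [div_lt_iff₀ hq] at h2
    linarith
  have hKpos : (0 : ℝ) < K := by
    have h1 : (0 : ℝ) ≤ (Module.finrank ℝ E : ℝ) := Nat.cast_nonneg _
    by_contra h
    push Not at h
    nlinarith
  -- lower bound for the norm
  obtain ⟨A, hA, hanti⟩ := L.exists_antilipschitzWith (LinearMap.ker_eq_bot.mpr hL)
  have hLx : ∀ x, ‖x‖ ≤ A * ‖L x‖ := by
    intro x
    have := hanti.le_mul_dist x 0
    simpa using this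
  obtain ⟨c0, hc0, hc0le⟩ : ∃ c0 : ℝ, 0 < c0 ∧ ∀ j, c0 ≤ c j := by
    rcases isEmpty_or_nonempty (Fin n) with h | h
    · exact ⟨1, one_pos, fun j => (h.false j).elim⟩
    · obtain ⟨j, hj⟩ := Finite.exists_min c
      exact ⟨c j, hc j, hj⟩
  have hApos : (0 : ℝ) < A := by exact_mod_cast hA
  set c' : ℝ := c0 * (1 / (A : ℝ)) ^ q with hc'
  have hc'pos : 0 < c' := by positivity
  have hprod : ∀ x, 1 + c' * ‖x‖ ^ q / K ≤ ∏ j, (1 + c j * |L x j| ^ q / K) := by
    intro x
    have hfac : ∀ j, 1 ≤ 1 + c j * |L x j| ^ q / K := by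
      intro j
      have := hc j
      have : 0 ≤ c j * |L x j| ^ q / K := by positivity
      linarith
    rcases isEmpty_or_nonempty (Fin n) with h | h
    · have hx : x = 0 := hL (by funext j; exact (h.false j).elim)
      rw [hx]
      simp [Real.zero_rpow hq.ne']
    · obtain ⟨j, hj⟩ : ∃ j, ‖L x‖ = |L x j| := by
        obtain ⟨j, hj⟩ := Finite.exists_max (fun j => |L x j|)
        refine ⟨j, le_antisymm ?_ ?_⟩
        · exact (pi_norm_le_iff_of_nonneg (abs_nonneg _)).mpr fun i => hj i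
        · exact norm_le_pi_norm (L x) j
      have h1 : 1 + c' * ‖x‖ ^ q / K ≤ 1 + c j * |L x j| ^ q / K := by
        have h2 : c' * ‖x‖ ^ q ≤ c j * |L x j| ^ q := by
          rw [hc', mul_assoc, ← Real.mul_rpow (by positivity) (norm_nonneg x)]
          refine mul_le_mul (hc0le j) ?_ (by positivity) (hc j).le
          refine Real.rpow_le_rpow (by positivity) ?_ hq.le
          rw [← hj]
          have := hLx x
          rw [one_div, inv_mul_le_iff₀ hApos]
          exact this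
        have := div_le_div_of_nonneg_right h2 hKpos.le
        linarith
      refine h1.trans ?_
      rw [← Finset.mul_prod_erase Finset.univ _ (Finset.mem_univ j)]
      have h3 : 1 ≤ ∏ i ∈ Finset.univ.erase j, (1 + c i * |L x i| ^ q / K) := by
        have h9 := Finset.prod_le_prod (s := Finset.univ.erase j) (f := fun _ => (1 : ℝ))
          (g := fun i => 1 + c i * |L x i| ^ q / K) (fun _ _ => zero_le_one) fun i _ => hfac i
        rwa [Finset.prod_const_one] at h9
      have h4 := hfac j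
      nlinarith
  set κ : ℝ := min 1 (c' / K) / 2 ^ q with hκ
  have hκpos : 0 < κ := by
    have : 0 < min 1 (c' / K) := lt_min one_pos (by positivity)
    positivity
  have hκle : ∀ x : E, κ * (1 + ‖x‖) ^ q ≤ 1 + c' * ‖x‖ ^ q / K := by
    intro x
    have h1 := one_add_rpow_le ‖x‖ q (norm_nonneg x) hq
    have h2 : κ * (1 + ‖x‖) ^ q ≤ κ * (2 ^ q * (1 + ‖x‖ ^ q)) :=
      mul_le_mul_of_nonneg_left h1 hκpos.le
    refine h2.trans ?_
    have h3 : κ * (2 ^ q * (1 + ‖x‖ ^ q)) = min 1 (c' / K) * (1 + ‖x‖ ^ q) := by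
      rw [hκ]
      have : (2 : ℝ) ^ q ≠ 0 := by positivity
      field_simp
    rw [h3]
    have h4 := min_le_left 1 (c' / K)
    have h5 := min_le_right 1 (c' / K)
    have h6 : 0 ≤ ‖x‖ ^ q := by positivity
    have h7 : c' * ‖x‖ ^ q / K = (c' / K) * ‖x‖ ^ q := by ring
    rw [h7]
    nlinarith
  have hbound : ∀ x, ∏ j, ENNReal.ofReal (1 / (1 + c j * |L x j| ^ q / K)) ^ K ≤
      ENNReal.ofReal ((κ⁻¹) ^ K) * ENNReal.ofReal ((1 + ‖x‖) ^ (-(q * K))) := by
    intro x
    have hpos : ∀ j, 0 < 1 + c j * |L x j| ^ q / K := by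
      intro j
      have := hc j
      positivity
    rw [Finset.prod_pow, ← ENNReal.ofReal_prod_of_nonneg (fun j _ => (one_div_pos.mpr (hpos j)).le),
      ← ENNReal.ofReal_pow (Finset.prod_nonneg fun j _ => (one_div_pos.mpr (hpos j)).le),
      ← ENNReal.ofReal_mul (by positivity)]
    refine ENNReal.ofReal_le_ofReal ?_
    have h1 : ∏ j, 1 / (1 + c j * |L x j| ^ q / K) ≤ (κ * (1 + ‖x‖) ^ q)⁻¹ := by
      simp only [one_div]
      rw [Finset.prod_inv_distrib]
      refine inv_anti₀ (by positivity) ((hκle x).trans (hprod x))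
    have h2 : (κ * (1 + ‖x‖) ^ q)⁻¹ ^ K = κ⁻¹ ^ K * (1 + ‖x‖) ^ (-(q * K)) := by
      rw [mul_inv, mul_pow, Real.rpow_neg (by positivity), Real.rpow_mul (by positivity),
        Real.rpow_natCast, inv_pow ((1 + ‖x‖) ^ q)]
    rw [← h2]
    refine pow_le_pow_left₀ (Finset.prod_nonneg fun j _ => (one_div_pos.mpr (hpos j)).le) h1 K
  refine ne_of_lt (lt_of_le_of_lt (lintegral_mono hbound) ?_)
  rw [lintegral_const_mul' _ _ ENNReal.ofReal_ne_top]
  exact ENNReal.mul_lt_top ENNReal.ofReal_lt_top (finite_integral_one_add_norm hKq)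


/-- J7: volume of the unit ball of `(∑ w_j |L_j x|^p)^(1/p)` as an integral -/
theorem volume_formula {E : Type*} [NormedAddCommGroup E] [NormedSpace ℝ E]
    [FiniteDimensional ℝ E] [Nontrivial E]
    [MeasurableSpace E] [BorelSpace E] (μ : Measure E) [μ.IsAddHaarMeasure] {n : ℕ}
    (L : E →ₗ[ℝ] (Fin n → ℝ)) (hL : Function.Injective L) (p : ℝ) (hp : 1 ≤ p)
    (w : Fin n → ℝ) (hw : ∀ j, 0 < w j) :
    μ {x : E | ∑ j, w j * |L x j| ^ p ≤ 1}
      = G μ (fun j x => |L x j| ^ p) (fun _ => 1) w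
        / ENNReal.ofReal (Real.Gamma (Module.finrank ℝ E / p + 1)) := by
  have hp0 : 0 < p := by linarith
  have hpr : (ENNReal.ofReal p).toReal = p := ENNReal.toReal_ofReal hp0.le
  have hfact : Fact (1 ≤ ENNReal.ofReal p) := by
    constructor
    rw [← ENNReal.ofReal_one]
    exact ENNReal.ofReal_le_ofReal hp
  -- the weighted linear map
  let T : E →ₗ[ℝ] (Fin n → ℝ) :=
    { toFun := fun x j => (w j) ^ (1 / p) * L x j
      map_add' := fun x y => by
        ext j; simp [mul_add]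
      map_smul' := fun c x => by
        ext j; simp; ring }
  have hTapp : ∀ x j, T x j = (w j) ^ (1 / p) * L x j := fun x j => rfl
  have hTinj : ∀ x, T x = 0 → x = 0 := by
    intro x hx
    apply hL
    rw [map_zero]
    ext j
    have h := congrFun hx j
    rw [hTapp] at h
    have h1 : (w j) ^ (1 / p) ≠ 0 := (Real.rpow_pos_of_pos (hw j) _).ne'
    exact (mul_eq_zero.mp h).resolve_left h1
  have hTp : ∀ x j, |T x j| ^ p = w j * |L x j| ^ p := by
    intro x j
    rw [hTapp, abs_mul, Real.mul_rpow (abs_nonneg _) (abs_nonneg _),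
      abs_of_pos (Real.rpow_pos_of_pos (hw j) _), ← Real.rpow_mul (hw j).le,
      one_div, inv_mul_cancel₀ hp0.ne', Real.rpow_one]
  let g : E → ℝ := fun x => ‖WithLp.toLp (ENNReal.ofReal p) (T x)‖
  have eq_norm : ∀ x : E, g x = (∑ j, |T x j| ^ p) ^ (1 / p) := by
    intro x
    simp [g, PiLp.norm_eq_sum (f := WithLp.toLp (.ofReal p) (T x)) (hpr.symm ▸ hp0), hpr]
  have hS0 : ∀ x : E, 0 ≤ ∑ j, |T x j| ^ p := by
    intro x
    exact Finset.sum_nonneg (fun j _ => Real.rpow_nonneg (abs_nonneg _) _)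
  have g_pow : ∀ x : E, g x ^ p = ∑ j, w j * |L x j| ^ p := by
    intro x
    rw [eq_norm, ← Real.rpow_mul (hS0 x), one_div, inv_mul_cancel₀ hp0.ne', Real.rpow_one]
    exact Finset.sum_congr rfl (fun j _ => hTp x j)
  have h1 : g 0 = 0 := by simp [g]
  have h2 : ∀ x, g (-x) = g x := by
    intro x
    simp only [g, map_neg]
    rw [WithLp.toLp_neg, norm_neg]
  have h3 : ∀ x y, g (x + y) ≤ g x + g y := by
    intro x y
    simp only [g, map_add]
    rw [WithLp.toLp_add]
    exact norm_add_le _ _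
  have h4 : ∀ {x}, g x = 0 → x = 0 := by
    intro x hx
    apply hTinj
    simp only [g] at hx
    rw [norm_eq_zero] at hx
    exact (WithLp.toLp_eq_zero _).mp hx
  have h5 : ∀ (r : ℝ) x, g (r • x) ≤ |r| * (g x) := by
    intro r x
    simp only [g, map_smul]
    rw [WithLp.toLp_smul]
    exact norm_smul_le (β := PiLp (.ofReal p) (fun _ : Fin n => ℝ)) r (WithLp.toLp (.ofReal p) (T x))
  have hg0 : ∀ x, 0 ≤ g x := fun x => norm_nonneg _
  have hTc : Continuous T := LinearMap.continuous_of_finiteDimensional T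
  have hgc : Continuous g := by
    have : g = fun x => (∑ j, |T x j| ^ p) ^ (1 / p) := funext eq_norm
    rw [this]
    apply Continuous.rpow_const _ (fun x => Or.inr (by positivity))
    apply continuous_finsetSum
    intro j _
    apply Continuous.rpow_const _ (fun x => Or.inr hp0.le)
    exact ((continuous_apply j).comp hTc).abs
  have key := measure_lt_one_eq_integral_div_gamma μ h1 h2 h3 h4 h5 hp0
  have hint : Integrable (fun x => Real.exp (-(g x) ^ p)) μ := by
    by_contra h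
    rw [integral_undef h, zero_div, ENNReal.ofReal_zero] at key
    have hopen : IsOpen {x : E | g x < 1} := isOpen_lt hgc continuous_const
    exact absurd key (IsOpen.measure_pos μ hopen ⟨0, by simp [h1]⟩).ne'
  have hset : {x : E | ∑ j, w j * |L x j| ^ p ≤ 1} = {x : E | g x ≤ 1} := by
    ext x
    simp only [Set.mem_ofPred_eq]
    rw [← g_pow]
    constructor
    · intro h
      by_contra hc
      push Not at hc
      have := Real.one_lt_rpow hc hp0
      linarith
    · intro h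
      exact Real.rpow_le_one (hg0 x) h hp0.le
  have hΓ : 0 < Real.Gamma (Module.finrank ℝ E / p + 1) := by
    apply Real.Gamma_pos_of_pos
    positivity
  rw [hset, measure_le_eq_lt μ h1 h2 h3 h4 h5 1, key, ENNReal.ofReal_div_of_pos hΓ]
  congr 1
  rw [ofReal_integral_eq_lintegral_ofReal hint (Filter.Eventually.of_forall fun x => (Real.exp_pos _).le)]
  unfold G
  apply lintegral_congr
  intro x
  rw [mul_one, g_pow]


/-- J8: a continuous midpoint concave function on `ℝ^n` is concave -/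
theorem concaveOn_of_midpoint {n : ℕ} (f : (Fin n → ℝ) → ℝ) (hf : Continuous f)
    (h : ∀ s t : Fin n → ℝ, (f s + f t) / 2 ≤ f (fun i => (s i + t i) / 2)) :
    ConcaveOn ℝ Set.univ f := by
  refine ⟨convex_univ, ?_⟩
  intro x _ y _ a b ha hb hab
  set ψ : ℝ → ℝ := fun l => f (fun i => (1 - l) * x i + l * y i) - ((1 - l) * f x + l * f y)
    with hψ
  have hc : Continuous ψ := by
    rw [hψ]
    refine Continuous.sub (hf.comp ?_) (by fun_prop)
    exact continuous_pi fun i => by fun_prop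
  have h0 : ψ 0 = 0 := by
    simp [hψ]
  have h1 : ψ 1 = 0 := by
    simp [hψ]
  have hmid : ∀ l l' : ℝ, (ψ l + ψ l') / 2 ≤ ψ ((l + l') / 2) := by
    intro l l'
    have := h (fun i => (1 - l) * x i + l * y i) (fun i => (1 - l') * x i + l' * y i)
    have e : (fun i => (((1 - l) * x i + l * y i) + ((1 - l') * x i + l' * y i)) / 2)
        = (fun i => (1 - (l + l') / 2) * x i + (l + l') / 2 * y i) := by
      funext i; ring
    rw [e] at this
    simp only [hψ]
    linarith
  have key : ∀ l ∈ Set.Icc (0 : ℝ) 1, 0 ≤ ψ l := by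
    by_contra hcon
    push Not at hcon
    obtain ⟨l1, hl1, hneg⟩ := hcon
    obtain ⟨m0, hm0, hmin⟩ := isCompact_Icc.exists_isMinOn (s := Set.Icc (0 : ℝ) 1)
      ⟨0, by simp⟩ hc.continuousOn
    have hm : ψ m0 < 0 := lt_of_le_of_lt (hmin hl1) hneg
    let S : Set ℝ := Set.Icc (0 : ℝ) 1 ∩ ψ ⁻¹' {ψ m0}
    have hS : IsCompact S := isCompact_Icc.inter_right ((isClosed_singleton).preimage hc)
    have hSn : S.Nonempty := ⟨m0, hm0, rfl⟩
    have hl0 : sInf S ∈ S := hS.sInf_mem hSn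
    obtain ⟨⟨ha0, ha1⟩, hval⟩ := hl0
    have hval' : ψ (sInf S) = ψ m0 := hval
    have hne0 : sInf S ≠ 0 := by
      intro hh; rw [hh, h0] at hval'; linarith
    have hne1 : sInf S ≠ 1 := by
      intro hh; rw [hh, h1] at hval'; linarith
    have hp0 : 0 < sInf S := lt_of_le_of_ne ha0 (Ne.symm hne0)
    have hp1 : sInf S < 1 := lt_of_le_of_ne ha1 hne1
    set l0 := sInf S with hl0d
    obtain ⟨d, hd, hd0, hd1⟩ : ∃ d : ℝ, 0 < d ∧ d ≤ l0 ∧ d ≤ 1 - l0 :=
      ⟨min l0 (1 - l0), lt_min hp0 (by linarith), min_le_left _ _, min_le_right _ _⟩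
    have hA : ψ m0 ≤ ψ (l0 - d) := hmin ⟨by linarith, by linarith⟩
    have hB : ψ m0 ≤ ψ (l0 + d) := hmin ⟨by linarith, by linarith⟩
    have hA' : ψ m0 ≠ ψ (l0 - d) := by
      intro hh
      have hmem : l0 - d ∈ S := ⟨⟨by linarith, by linarith⟩, hh.symm⟩
      have : l0 ≤ l0 - d := csInf_le hS.bddBelow hmem
      linarith
    have hA2 : ψ m0 < ψ (l0 - d) := lt_of_le_of_ne hA hA'
    have hM := hmid (l0 - d) (l0 + d)
    have e : (l0 - d + (l0 + d)) / 2 = l0 := by ring
    rw [e, hval'] at hM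
    linarith
  have hb1 : b ≤ 1 := by linarith
  have hk := key b ⟨hb, hb1⟩
  simp only [hψ] at hk
  have ea : a = 1 - b := by linarith
  have e : a • x + b • y = (fun i => (1 - b) * x i + b * y i) := by
    funext i; simp [ea]
  rw [e, smul_eq_mul, smul_eq_mul, ea]
  linarith



open scoped Pointwise in
/-- J9: positivity and continuity of the volume as a function of the scaling -/
theorem volume_continuous {E : Type*} [NormedAddCommGroup E] [NormedSpace ℝ E]
    [FiniteDimensional ℝ E]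
    [MeasurableSpace E] [BorelSpace E] (μ : Measure E) [μ.IsAddHaarMeasure] {n : ℕ}
    (L : E →ₗ[ℝ] (Fin n → ℝ)) (hL : Function.Injective L) (p : ℝ) (hp : 0 < p) :
    (∀ t : Fin n → ℝ, 0 < (μ {x : E | ∑ j, Real.exp (-(p * t j)) * |L x j| ^ p ≤ 1}).toReal) ∧
      Continuous (fun t : Fin n → ℝ =>
        Real.log (μ {x : E | ∑ j, Real.exp (-(p * t j)) * |L x j| ^ p ≤ 1}).toReal) := by
  have hLc : Continuous L := L.continuous_of_finiteDimensional
  set A : (Fin n → ℝ) → Set E := fun t => {x : E | ∑ j, Real.exp (-(p * t j)) * |L x j| ^ p ≤ 1}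
    with hA
  have hcont : ∀ t : Fin n → ℝ, Continuous fun x : E =>
      ∑ j, Real.exp (-(p * t j)) * |L x j| ^ p := by
    intro t
    refine continuous_finsetSum _ fun j _ => ?_
    refine continuous_const.mul ?_
    have h1 : Continuous fun x : E => |L x j| := ((continuous_apply j).comp hLc).abs
    exact h1.rpow_const (fun x => Or.inr hp.le)
  have hpos : ∀ t, 0 < μ (A t) := by
    intro t
    have ho : IsOpen {x : E | ∑ j, Real.exp (-(p * t j)) * |L x j| ^ p < 1} :=
      isOpen_lt (hcont t) continuous_const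
    have hne : ({x : E | ∑ j, Real.exp (-(p * t j)) * |L x j| ^ p < 1}).Nonempty := by
      refine ⟨0, ?_⟩
      simp [Real.zero_rpow hp.ne']
    have hm := ho.measure_pos μ hne
    refine lt_of_lt_of_le hm (measure_mono ?_)
    intro x hx
    have hx' : ∑ j, Real.exp (-(p * t j)) * |L x j| ^ p < 1 := hx
    exact hx'.le
  obtain ⟨K, hK0, hK⟩ := L.exists_antilipschitzWith (LinearMap.ker_eq_bot.mpr hL)
  have hfin : ∀ t, μ (A t) < ⊤ := by
    intro t
    have hb : Bornology.IsBounded (A t) := by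
      have hsub : A t ⊆ L ⁻¹' (Metric.closedBall 0 (∑ j, Real.exp (t j))) := by
        intro x hx
        rw [Set.mem_preimage, mem_closedBall_zero_iff]
        have hs0 : 0 ≤ ∑ j, Real.exp (t j) := Finset.sum_nonneg fun j _ => (Real.exp_pos _).le
        rw [pi_norm_le_iff_of_nonneg hs0]
        intro j
        have hx1 : Real.exp (-(p * t j)) * |L x j| ^ p ≤ 1 := by
          refine le_trans ?_ hx
          exact Finset.single_le_sum (f := fun j => Real.exp (-(p * t j)) * |L x j| ^ p)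
            (fun i _ => mul_nonneg (Real.exp_pos _).le (Real.rpow_nonneg (abs_nonneg _) _))
            (Finset.mem_univ j)
        have hx2 : |L x j| ^ p ≤ (Real.exp (t j)) ^ p := by
          rw [← Real.exp_mul]
          have h3 : Real.exp (t j * p) * (Real.exp (-(p * t j)) * |L x j| ^ p) ≤
              Real.exp (t j * p) * 1 := mul_le_mul_of_nonneg_left hx1 (Real.exp_pos _).le
          rw [← mul_assoc, ← Real.exp_add] at h3
          have h4 : t j * p + -(p * t j) = 0 := by ring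
          rw [h4, Real.exp_zero, one_mul, mul_one] at h3
          exact h3
        have hx3 : |L x j| ≤ Real.exp (t j) :=
          (Real.rpow_le_rpow_iff (abs_nonneg _) (Real.exp_pos _).le hp).mp hx2
        rw [Real.norm_eq_abs]
        refine hx3.trans ?_
        exact Finset.single_le_sum (f := fun j => Real.exp (t j)) (fun i _ => (Real.exp_pos _).le)
          (Finset.mem_univ j)
      exact (hK.isBounded_preimage Metric.isBounded_closedBall).subset hsub
    exact hb.measure_lt_top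
  have hposR : ∀ t, 0 < (μ (A t)).toReal := fun t => ENNReal.toReal_pos (hpos t).ne' (hfin t).ne
  refine ⟨hposR, ?_⟩
  have key : ∀ s t : Fin n → ℝ, Real.log (μ (A s)).toReal ≤
      Module.finrank ℝ E * dist s t + Real.log (μ (A t)).toReal := by
    intro s t
    have hsub : A s ⊆ Real.exp (dist s t) • A t := by
      intro x hx
      refine ⟨Real.exp (-dist s t) • x, ?_, ?_⟩
      · change ∑ j, Real.exp (-(p * t j)) * |L (Real.exp (-dist s t) • x) j| ^ p ≤ 1
        refine le_trans (Finset.sum_le_sum fun j _ => ?_) hx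
        rw [map_smul, Pi.smul_apply, smul_eq_mul, abs_mul, abs_of_pos (Real.exp_pos _),
          Real.mul_rpow (Real.exp_pos _).le (abs_nonneg _), ← mul_assoc, ← Real.exp_mul,
          ← Real.exp_add]
        apply mul_le_mul_of_nonneg_right _ (Real.rpow_nonneg (abs_nonneg _) _)
        apply Real.exp_le_exp.mpr
        have hd : |s j - t j| ≤ dist s t := by
          have := dist_le_pi_dist s t j
          rwa [Real.dist_eq] at this
        have hd2 : s j ≤ t j + dist s t := by linarith [le_abs_self (s j - t j)]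
        nlinarith [mul_le_mul_of_nonneg_left hd2 hp.le]
      · change Real.exp (dist s t) • Real.exp (-dist s t) • x = x
        rw [smul_smul, ← Real.exp_add, add_neg_cancel, Real.exp_zero, one_smul]
    have h1 : μ (A s) ≤ ENNReal.ofReal (|Real.exp (dist s t) ^ Module.finrank ℝ E|) * μ (A t) := by
      calc μ (A s) ≤ μ (Real.exp (dist s t) • A t) := measure_mono hsub
        _ = _ := Measure.addHaar_smul μ _ _
    have h2 : (μ (A s)).toReal ≤ Real.exp (dist s t) ^ Module.finrank ℝ E * (μ (A t)).toReal := by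
      have hne : ENNReal.ofReal (|Real.exp (dist s t) ^ Module.finrank ℝ E|) * μ (A t) ≠ ⊤ :=
        ENNReal.mul_ne_top ENNReal.ofReal_ne_top (hfin t).ne
      have h3 := ENNReal.toReal_mono hne h1
      rw [ENNReal.toReal_mul, ENNReal.toReal_ofReal (abs_nonneg _), abs_of_pos (by positivity)] at h3
      exact h3
    have h4 := Real.log_le_log (hposR s) h2
    rw [Real.log_mul (by positivity) (hposR t).ne', Real.log_pow, Real.log_exp] at h4
    exact h4
  have hlip : LipschitzWith (Module.finrank ℝ E : NNReal) (fun t : Fin n → ℝ =>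
        Real.log (μ (A t)).toReal) := by
    refine LipschitzWith.of_dist_le_mul fun s t => ?_
    rw [Real.dist_eq, abs_le]
    have h1 := key s t
    have h2 := key t s
    rw [dist_comm t s] at h2
    simp only [NNReal.coe_natCast]
    constructor <;> linarith
  exact hlip.continuous

theorem measurable_lap (h : ℝ → ℝ≥0∞) (hh : Measurable h) : Measurable (lap h) := by
  unfold lap
  refine Measurable.lintegral_prod_right' (f := fun p : ℝ × ℝ => h p.2 * ENNReal.ofReal (Real.exp (-(p.1 * p.2)))) ?_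
  exact (hh.comp measurable_snd).mul (by fun_prop)

section iter
variable {E : Type*} [MeasurableSpace E] (μ : Measure E) [SFinite μ] {n : ℕ}
    (pl : ∀ (F G H : ℝ → ℝ≥0∞), Measurable F → Measurable G → Measurable H →
      (∀ x y, 0 < x → 0 < y → F x * G y ≤ H (Real.sqrt (x * y)) ^ 2) →
      (∫⁻ x in Ioi (0 : ℝ), F x) * (∫⁻ x in Ioi (0 : ℝ), G x) ≤ (∫⁻ x in Ioi (0 : ℝ), H x) ^ 2)
    (N : Fin n → E → ℝ) (hN : ∀ j, Measurable (N j)) (hN0 : ∀ j x, 0 ≤ N j x)
    (h : ℝ → ℝ≥0∞) (hh : Measurable h)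
    (hmul : ∀ s t, 0 < s → 0 < t → h s * h t ≤ h (Real.sqrt (s * t)) ^ 2)
include pl hN hN0 hh hmul

theorem TP_step_pow (m : ℕ) (Φ₁ Φ₂ Φ₃ : E → ℝ≥0∞) (m1 : Measurable Φ₁) (m2 : Measurable Φ₂)
    (m3 : Measurable Φ₃)
    (H : TP μ N Φ₁ Φ₂ Φ₃) (j : Fin n) (a b : ℝ) (ha : 0 < a) (hb : 0 < b) :
    TP μ N (fun x => lap h (a * N j x) ^ m * Φ₁ x) (fun x => lap h (b * N j x) ^ m * Φ₂ x)
      (fun x => lap h (Real.sqrt (a * b) * N j x) ^ m * Φ₃ x) := by
  have hl : ∀ c : ℝ, Measurable (fun x => lap h (c * N j x)) := fun c =>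
    (measurable_lap h hh).comp ((hN j).const_mul c)
  induction m with
  | zero => simpa using H
  | succ m ih =>
    have := TP_step μ pl N hN hN0 h hh hmul _ _ _ (((hl a).pow_const m).mul m1)
      (((hl b).pow_const m).mul m2) (((hl (Real.sqrt (a * b))).pow_const m).mul m3) ih j a b ha hb
    simp only [pow_succ', mul_assoc]
    exact this

theorem TP_iter (m : ℕ) (H : TP μ N (fun _ => 1) (fun _ => 1) (fun _ => 1)) (a b : Fin n → ℝ)
    (ha : ∀ j, 0 < a j) (hb : ∀ j, 0 < b j) :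
    TP μ N (fun x => ∏ j, lap h (a j * N j x) ^ m) (fun x => ∏ j, lap h (b j * N j x) ^ m)
      (fun x => ∏ j, lap h (Real.sqrt (a j * b j) * N j x) ^ m) := by
  have hl : ∀ (c : Fin n → ℝ) (S : Finset (Fin n)), Measurable (fun x => ∏ j ∈ S, lap h (c j * N j x) ^ m) := by
    intro c S
    refine Finset.measurable_prod S (fun j _ => ?_)
    exact ((measurable_lap h hh).comp ((hN j).const_mul (c j))).pow_const m
  have key : ∀ S : Finset (Fin n), TP μ N (fun x => ∏ j ∈ S, lap h (a j * N j x) ^ m)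
      (fun x => ∏ j ∈ S, lap h (b j * N j x) ^ m)
      (fun x => ∏ j ∈ S, lap h (Real.sqrt (a j * b j) * N j x) ^ m) := by
    intro S
    induction S using Finset.induction_on with
    | empty => simpa using H
    | insert j S hj ih =>
      have := TP_step_pow μ pl N hN hN0 h hh hmul m _ _ _ (hl a S) (hl b S)
        (hl (fun j => Real.sqrt (a j * b j)) S) ih j (a j) (b j) (ha j) (hb j)
      simpa only [Finset.prod_insert hj] using this
  exact key Finset.univ

end iter

theorem bern (y : ℝ) (hy : 0 ≤ y) (K l : ℕ) (hK : 0 < K) (hl : 0 < l) :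
    (1 / (1 + y / ((K * l : ℕ) : ℝ))) ^ (K * l) ≤ (1 / (1 + y / K)) ^ K := by
  have hK' : (0 : ℝ) < K := by exact_mod_cast hK
  have hl' : (0 : ℝ) < l := by exact_mod_cast hl
  have h1 : 1 + y / K ≤ (1 + y / ((K * l : ℕ) : ℝ)) ^ l := by
    have h := one_add_mul_le_pow (a := y / ((K * l : ℕ) : ℝ)) (by
      have : 0 ≤ y / ((K * l : ℕ) : ℝ) := by positivity
      linarith) l
    refine le_trans (le_of_eq ?_) h
    push_cast
    field_simp
  rw [mul_comm K l, pow_mul, one_div_pow, one_div_pow, one_div_pow]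
  have h0 : 0 < 1 + y / (K : ℝ) := by positivity
  rw [mul_comm l K]
  gcongr

theorem tendsto_prod_ennreal {ι κ : Type*} (S : Finset ι) (l : Filter κ) (f : ι → κ → ℝ≥0∞)
    (c : ι → ℝ≥0∞) (hc : ∀ j, c j ≠ ∞) (hf : ∀ j, Tendsto (f j) l (𝓝 (c j))) :
    Tendsto (fun m => ∏ j ∈ S, f j m) l (𝓝 (∏ j ∈ S, c j)) := by
  classical
  induction S using Finset.induction_on with
  | empty => simpa using tendsto_const_nhds
  | insert j S hj ih =>
    simp only [Finset.prod_insert hj]
    exact ENNReal.Tendsto.mul (hf j) (Or.inr (ENNReal.prod_ne_top (fun i _ => hc i))) ih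
      (Or.inr (hc j))

/-- the limit of the approximants -/
theorem approx_tendsto {E : Type*} [NormedAddCommGroup E] [NormedSpace ℝ E]
    [FiniteDimensional ℝ E] [MeasurableSpace E] [BorelSpace E] (μ : Measure E)
    [μ.IsAddHaarMeasure] {n : ℕ} (L : E →ₗ[ℝ] (Fin n → ℝ)) (hL : Function.Injective L)
    (p q : ℝ) (hq : 0 < q) (hqp : q < p) (w : Fin n → ℝ) (hw : ∀ j, 0 < w j) :
    ∃ K₀ : ℕ, ∀ K : ℕ, K₀ ≤ K → Tendsto (fun l : ℕ => ∫⁻ x, ∏ j,
      lap (pareto (q / p)) (w j ^ (1 / (q / p)) * ((K * (l + 1) : ℕ) : ℝ) ^ (-(1 / (q / p)))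
        * |L x j| ^ p) ^ (K * (l + 1)) ∂μ) atTop
      (𝓝 (G μ (fun j x => |L x j| ^ q) (fun _ => 1) (fun j => C (q / p) * w j))) := by
  have hp : 0 < p := hq.trans hqp
  set α := q / p with hαdef
  have hα : 0 < α := by positivity
  have hα1 : α < 1 := by rw [hαdef, div_lt_one hp]; exact hqp
  obtain ⟨K₀, hK₀⟩ := dom_finite μ L hL q hq (fun j => w j / 2) (fun j => by have := hw j; positivity)
  refine ⟨max K₀ 1, fun K hK => ?_⟩
  have hK1 : 0 < K := lt_of_lt_of_le (by norm_num) ((le_max_right _ _).trans hK)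
  have hmeas : ∀ j, Measurable (fun x : E => |L x j| ^ p) := by
    intro j
    have hc : Continuous (fun x : E => L x j) :=
      (continuous_apply j).comp L.continuous_of_finiteDimensional
    exact (hc.abs.measurable).pow_const p
  have key : ∀ (j : Fin n) (x : E) (m : ℕ), w j ^ (1 / α) * (m : ℝ) ^ (-(1 / α)) * |L x j| ^ p
      = (w j * |L x j| ^ q) ^ (1 / α) * (m : ℝ) ^ (-(1 / α)) := by
    intro j x m
    have h1 : (w j * |L x j| ^ q) ^ (1 / α) = w j ^ (1 / α) * |L x j| ^ p := by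
      rw [Real.mul_rpow (hw j).le (by positivity), ← Real.rpow_mul (abs_nonneg _)]
      congr 2
      rw [hαdef]; field_simp
    rw [h1]; ring
  have hG : G μ (fun j x => |L x j| ^ q) (fun _ => 1) (fun j => C α * w j)
      = ∫⁻ x, ∏ j, ENNReal.ofReal (Real.exp (-(C α * (w j * |L x j| ^ q)))) ∂μ := by
    unfold G
    refine lintegral_congr (fun x => ?_)
    rw [← ENNReal.ofReal_prod_of_nonneg (fun j _ => (Real.exp_pos _).le), ← Real.exp_sum, mul_one,
      Finset.sum_neg_distrib]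
    congr 3
    refine Finset.sum_congr rfl (fun j _ => by ring)
  rw [hG]
  refine tendsto_lintegral_of_dominated_convergence'
    (fun x => ∏ j, ENNReal.ofReal (1 / (1 + w j / 2 * |L x j| ^ q / K)) ^ K) ?_ ?_ ?_ ?_
  · intro l
    refine (Finset.measurable_prod _ (fun j _ => ?_)).aemeasurable
    exact ((measurable_lap _ (measurable_pareto α)).comp ((hmeas j).const_mul _)).pow_const _
  · intro l
    refine Filter.Eventually.of_forall (fun x => ?_)
    refine Finset.prod_le_prod' (fun j _ => ?_)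
    rw [key]
    have hwj := hw j
    have hy : 0 ≤ w j * |L x j| ^ q := by positivity
    set m : ℕ := K * (l + 1) with hmdef
    have hm : (0 : ℝ) < (m : ℝ) := by exact_mod_cast Nat.mul_pos hK1 (Nat.succ_pos l)
    have h1 := lap_pareto_le α hα hα1 ((w j * |L x j| ^ q) ^ (1 / α)
      * (m : ℝ) ^ (-(1 / α))) (by positivity)
    have h2 : ((w j * |L x j| ^ q) ^ (1 / α) * (m : ℝ) ^ (-(1 / α))) ^ α
        = w j * |L x j| ^ q / (m : ℝ) := by
      rw [Real.mul_rpow (by positivity) (by positivity), ← Real.rpow_mul hy,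
        ← Real.rpow_mul hm.le]
      have e1 : 1 / α * α = 1 := by field_simp
      have e2 : -(1 / α) * α = -1 := by field_simp
      rw [e1, e2, Real.rpow_one, Real.rpow_neg_one]; ring
    rw [h2] at h1
    have h3 : w j * |L x j| ^ q / (m : ℝ) / 2 = w j / 2 * |L x j| ^ q / (m : ℝ) := by ring
    rw [h3] at h1
    have h4 : 0 ≤ 1 / (1 + w j / 2 * |L x j| ^ q / (m : ℝ)) := by positivity
    have h5 : 0 ≤ 1 / (1 + w j / 2 * |L x j| ^ q / (K : ℝ)) := by positivity
    calc lap (pareto α) ((w j * |L x j| ^ q) ^ (1 / α) * (m : ℝ) ^ (-(1 / α))) ^ m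
        ≤ (ENNReal.ofReal (1 / (1 + w j / 2 * |L x j| ^ q / (m : ℝ)))) ^ m := by gcongr
      _ = ENNReal.ofReal ((1 / (1 + w j / 2 * |L x j| ^ q / (m : ℝ))) ^ m) :=
          (ENNReal.ofReal_pow h4 _).symm
      _ ≤ ENNReal.ofReal ((1 / (1 + w j / 2 * |L x j| ^ q / (K : ℝ))) ^ K) := by
          apply ENNReal.ofReal_le_ofReal
          exact bern (w j / 2 * |L x j| ^ q) (by positivity) K (l + 1) hK1 (Nat.succ_pos l)
      _ = _ := ENNReal.ofReal_pow h5 _
  · exact hK₀ K ((le_max_left _ _).trans hK)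
  · refine Filter.Eventually.of_forall (fun x => ?_)
    refine tendsto_prod_ennreal _ _ _ _ (fun j => ENNReal.ofReal_ne_top) (fun j => ?_)
    simp only [key]
    have h1 := lap_pareto_tendsto α hα hα1 (w j * |L x j| ^ q) (by have := hw j; positivity)
    have h2 : Tendsto (fun l : ℕ => K * (l + 1)) atTop atTop :=
      (tendsto_add_atTop_nat 1).const_mul_atTop' hK1
    exact h1.comp h2


/-- validity of the inequality at exponent `p` implies its validity at every smaller exponent -/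
theorem LC_step {E : Type*} [NormedAddCommGroup E] [NormedSpace ℝ E]
    [FiniteDimensional ℝ E] [MeasurableSpace E] [BorelSpace E] (μ : Measure E)
    [μ.IsAddHaarMeasure] {n : ℕ}
    (pl : ∀ (F G H : ℝ → ℝ≥0∞), Measurable F → Measurable G → Measurable H →
      (∀ x y, 0 < x → 0 < y → F x * G y ≤ H (Real.sqrt (x * y)) ^ 2) →
      (∫⁻ x in Ioi (0 : ℝ), F x) * (∫⁻ x in Ioi (0 : ℝ), G x) ≤ (∫⁻ x in Ioi (0 : ℝ), H x) ^ 2)
    (L : E →ₗ[ℝ] (Fin n → ℝ)) (hL : Function.Injective L)
    (p q : ℝ) (hq : 0 < q) (hqp : q < p)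
    (H : TP μ (fun j x => |L x j| ^ p) (fun _ => 1) (fun _ => 1) (fun _ => 1)) :
    TP μ (fun j x => |L x j| ^ q) (fun _ => 1) (fun _ => 1) (fun _ => 1) := by
  have hp : 0 < p := hq.trans hqp
  set α := q / p with hαdef
  have hα : 0 < α := by positivity
  have hα1 : α < 1 := by rw [hαdef, div_lt_one hp]; exact hqp
  have hC := C_pos α hα hα1
  intro v v' hv hv'
  have hmeas : ∀ j, Measurable (fun x : E => |L x j| ^ p) := by
    intro j
    have hc : Continuous (fun x : E => L x j) :=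
      (continuous_apply j).comp L.continuous_of_finiteDimensional
    exact (hc.abs.measurable).pow_const p
  have e0 : ∀ u : Fin n → ℝ, (fun j => C α * (u j / C α)) = u := by
    intro u; ext j; field_simp
  obtain ⟨K₁, h1⟩ := approx_tendsto μ L hL p q hq hqp (fun j => v j / C α)
    (fun j => div_pos (hv j) hC)
  obtain ⟨K₂, h2⟩ := approx_tendsto μ L hL p q hq hqp (fun j => v' j / C α)
    (fun j => div_pos (hv' j) hC)
  obtain ⟨K₃, h3⟩ := approx_tendsto μ L hL p q hq hqp
    (fun j => Real.sqrt (v j * v' j) / C α)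
    (fun j => div_pos (Real.sqrt_pos.mpr (mul_pos (hv j) (hv' j))) hC)
  set K := max K₁ (max K₂ (max K₃ 1)) with hK
  have hK1 : 0 < K := by omega
  have t1 := h1 K (by omega)
  have t2 := h2 K (by omega)
  have t3 := h3 K (by omega)
  simp only [← hαdef, e0] at t1 t2 t3
  have key : ∀ l : ℕ, (∫⁻ x, ∏ j,
      lap (pareto α) ((v j / C α) ^ (1 / α) * ((K * (l + 1) : ℕ) : ℝ) ^ (-(1 / α))
        * |L x j| ^ p) ^ (K * (l + 1)) ∂μ) * (∫⁻ x, ∏ j,
      lap (pareto α) ((v' j / C α) ^ (1 / α) * ((K * (l + 1) : ℕ) : ℝ) ^ (-(1 / α))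
        * |L x j| ^ p) ^ (K * (l + 1)) ∂μ) ≤ (∫⁻ x, ∏ j,
      lap (pareto α) ((Real.sqrt (v j * v' j) / C α) ^ (1 / α)
        * ((K * (l + 1) : ℕ) : ℝ) ^ (-(1 / α))
        * |L x j| ^ p) ^ (K * (l + 1)) ∂μ) ^ 2 := by
    intro l
    set m : ℕ := K * (l + 1) with hmdef
    have hm : (0 : ℝ) < (m : ℝ) := by exact_mod_cast Nat.mul_pos hK1 (Nat.succ_pos l)
    have ha : ∀ j, 0 < (v j / C α) ^ (1 / α) * (m : ℝ) ^ (-(1 / α)) := fun j => by
      have := hv j; positivity
    have hb : ∀ j, 0 < (v' j / C α) ^ (1 / α) * (m : ℝ) ^ (-(1 / α)) := fun j => by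
      have := hv' j; positivity
    have hs : ∀ j, Real.sqrt (((v j / C α) ^ (1 / α) * (m : ℝ) ^ (-(1 / α)))
        * ((v' j / C α) ^ (1 / α) * (m : ℝ) ^ (-(1 / α))))
        = (Real.sqrt (v j * v' j) / C α) ^ (1 / α) * (m : ℝ) ^ (-(1 / α)) := by
      intro j
      have h1 := hv j
      have h2 := hv' j
      have e1 : (Real.sqrt (v j * v' j) / C α) ^ (1 / α)
          * (Real.sqrt (v j * v' j) / C α) ^ (1 / α)
          = (v j / C α) ^ (1 / α) * (v' j / C α) ^ (1 / α) := by
        rw [← Real.mul_rpow (by positivity) (by positivity),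
          ← Real.mul_rpow (by positivity) (by positivity)]
        congr 1
        rw [div_mul_div_comm, div_mul_div_comm, Real.mul_self_sqrt (by positivity)]
      have e2 : ((v j / C α) ^ (1 / α) * (m : ℝ) ^ (-(1 / α)))
          * ((v' j / C α) ^ (1 / α) * (m : ℝ) ^ (-(1 / α)))
          = ((Real.sqrt (v j * v' j) / C α) ^ (1 / α) * (m : ℝ) ^ (-(1 / α)))
            * ((Real.sqrt (v j * v' j) / C α) ^ (1 / α) * (m : ℝ) ^ (-(1 / α))) := by
        rw [mul_mul_mul_comm, mul_mul_mul_comm ((Real.sqrt (v j * v' j) / C α) ^ (1 / α)), e1]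
      rw [e2, Real.sqrt_mul_self (by positivity)]
    have hN0 : ∀ (j : Fin n) (x : E), 0 ≤ |L x j| ^ p := fun j x => by positivity
    have hIt := TP_iter μ pl (fun j x => |L x j| ^ p) hmeas hN0 (pareto α) (measurable_pareto α)
      (pareto_mul α hα) m H _ _ ha hb
    simp only [hs] at hIt
    have hl : ∀ (c : Fin n → ℝ), Measurable
        (fun x : E => ∏ j, lap (pareto α) (c j * |L x j| ^ p) ^ m) := by
      intro c
      refine Finset.measurable_prod _ (fun j _ => ?_)
      exact ((measurable_lap _ (measurable_pareto α)).comp ((hmeas j).const_mul (c j))).pow_const m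
    exact TP_zero μ _ hmeas hN0 _ _ _ (hl _) (hl _) (hl _) hIt
  have hfin : ∀ u : Fin n → ℝ, (∀ j, 0 < u j) →
      G μ (fun j x => |L x j| ^ q) (fun _ => 1) u ≠ ∞ := by
    intro u hu
    obtain ⟨K₀, hK₀⟩ := dom_finite μ L hL q hq u hu
    have h0 := hK₀ (max K₀ 1) (le_max_left _ _)
    have hK' : (0 : ℝ) < ((max K₀ 1 : ℕ) : ℝ) := by
      exact_mod_cast lt_of_lt_of_le Nat.zero_lt_one (le_max_right K₀ 1)
    refine ne_top_of_le_ne_top h0 (lintegral_mono (fun x => ?_))
    simp only [mul_one]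
    rw [← Finset.sum_neg_distrib, Real.exp_sum,
      ENNReal.ofReal_prod_of_nonneg (fun j _ => (Real.exp_pos _).le)]
    refine Finset.prod_le_prod' (fun j _ => ?_)
    have huj := hu j
    have hy : 0 ≤ u j * |L x j| ^ q := by positivity
    rw [← ENNReal.ofReal_pow (by positivity)]
    apply ENNReal.ofReal_le_ofReal
    rw [Real.exp_neg, one_div_pow, one_div]
    apply inv_anti₀ (by positivity)
    calc (1 + u j * |L x j| ^ q / ((max K₀ 1 : ℕ) : ℝ)) ^ (max K₀ 1)
        ≤ (Real.exp (u j * |L x j| ^ q / ((max K₀ 1 : ℕ) : ℝ))) ^ (max K₀ 1) := by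
          gcongr
          linarith [Real.add_one_le_exp (u j * |L x j| ^ q / ((max K₀ 1 : ℕ) : ℝ))]
      _ = Real.exp (u j * |L x j| ^ q) := by
          rw [← Real.exp_nat_mul]
          congr 1
          field_simp
  have l1 := ENNReal.Tendsto.mul t1 (Or.inr (hfin v' hv')) t2 (Or.inr (hfin v hv))
  have l2 := ENNReal.Tendsto.pow (n := 2) t3
  exact le_of_tendsto_of_tendsto' l1 l2 key

/-- multiplicative midpoint inequality for all exponents `0 < q ≤ 2` -/
theorem LC_below_two {E : Type*} [NormedAddCommGroup E] [NormedSpace ℝ E]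
    [FiniteDimensional ℝ E] [MeasurableSpace E] [BorelSpace E] (μ : Measure E)
    [μ.IsAddHaarMeasure] {n : ℕ} (L : E →ₗ[ℝ] (Fin n → ℝ)) (hL : Function.Injective L)
    (q : ℝ) (hq : 0 < q) (hq2 : q < 2) :
    TP μ (fun j x => |L x j| ^ q) (fun _ => 1) (fun _ => 1) (fun _ => 1) :=
  LC_step μ mpl1 L hL 2 q hq hq2 (base_two μ L hL)

theorem concave_of_TP {E : Type*} [NormedAddCommGroup E] [NormedSpace ℝ E]
    [FiniteDimensional ℝ E] [Nontrivial E] [MeasurableSpace E] [BorelSpace E] (μ : Measure E)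
    [μ.IsAddHaarMeasure] {n : ℕ} (L : E →ₗ[ℝ] (Fin n → ℝ)) (hL : Function.Injective L)
    (p : ℝ) (hp : 1 ≤ p)
    (H : TP μ (fun j x => |L x j| ^ p) (fun _ => 1) (fun _ => 1) (fun _ => 1)) :
    ConcaveOn ℝ Set.univ (fun t : Fin n → ℝ =>
      Real.log (μ {x : E | ∑ j, Real.exp (-(p * t j)) * |L x j| ^ p ≤ 1}).toReal) := by
  obtain ⟨hpos, hcont⟩ := volume_continuous μ L hL p (by linarith)
  refine concaveOn_of_midpoint _ hcont (fun s t => ?_)
  set V : (Fin n → ℝ) → ℝ≥0∞ := fun t =>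
    μ {x : E | ∑ j, Real.exp (-(p * t j)) * |L x j| ^ p ≤ 1} with hV
  have hVf : ∀ t, V t = G μ (fun j x => |L x j| ^ p) (fun _ => 1) (fun j => Real.exp (-(p * t j)))
        / ENNReal.ofReal (Real.Gamma (Module.finrank ℝ E / p + 1)) := fun t =>
    volume_formula μ L hL p hp (fun j => Real.exp (-(p * t j))) (fun j => Real.exp_pos _)
  have hTP := H (fun j => Real.exp (-(p * s j))) (fun j => Real.exp (-(p * t j)))
    (fun j => Real.exp_pos _) (fun j => Real.exp_pos _)
  have hs : (fun j => Real.sqrt (Real.exp (-(p * s j)) * Real.exp (-(p * t j))))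
      = fun j => Real.exp (-(p * ((s j + t j) / 2))) := by
    ext j
    rw [← Real.exp_add, show -(p * s j) + -(p * t j)
      = -(p * ((s j + t j) / 2)) + -(p * ((s j + t j) / 2)) by ring, Real.exp_add,
      Real.sqrt_mul_self (Real.exp_pos _).le]
  rw [hs] at hTP
  have hmul : V s * V t ≤ V (fun i => (s i + t i) / 2) ^ 2 := by
    rw [hVf s, hVf t, hVf (fun i => (s i + t i) / 2)]
    generalize ENNReal.ofReal (Real.Gamma (Module.finrank ℝ E / p + 1)) = c
    simp only [ENNReal.div_eq_inv_mul]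
    rw [mul_pow]
    calc _ = c⁻¹ ^ 2 * (G μ (fun j x => |L x j| ^ p) (fun _ => 1) (fun j => Real.exp (-(p * s j)))
          * G μ (fun j x => |L x j| ^ p) (fun _ => 1) (fun j => Real.exp (-(p * t j)))) := by ring
      _ ≤ _ := by gcongr
  have p1 : 0 < (V s).toReal := hpos s
  have p2 : 0 < (V t).toReal := hpos t
  have p3 : 0 < (V (fun i => (s i + t i) / 2)).toReal := hpos _
  have hne : V (fun i => (s i + t i) / 2) ≠ ∞ := by
    intro h; rw [h] at p3; simp at p3
  have hreal : (V s).toReal * (V t).toReal ≤ (V (fun i => (s i + t i) / 2)).toReal ^ 2 := by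
    rw [← ENNReal.toReal_mul, ← ENNReal.toReal_pow]
    exact ENNReal.toReal_mono (ENNReal.pow_ne_top hne) hmul
  have hlog := Real.log_le_log (mul_pos p1 p2) hreal
  rw [Real.log_mul p1.ne' p2.ne', Real.log_pow] at hlog
  push_cast at hlog
  show (Real.log (V s).toReal + Real.log (V t).toReal) / 2
    ≤ Real.log (V (fun i => (s i + t i) / 2)).toReal
  linarith

/-- the closed unit ball of the `ℓ_p` norm on `ℝ^n` -/
def lpBall (p : ℝ) (n : ℕ) : Set (EuclideanSpace ℝ (Fin n)) := {x | ∑ i, |x i| ^ p ≤ 1}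

/-- the image of `S` under the diagonal map `diag (e^{t_1}, ..., e^{t_n})` -/
def scaled {n : ℕ} (t : Fin n → ℝ) (S : Set (EuclideanSpace ℝ (Fin n))) :
    Set (EuclideanSpace ℝ (Fin n)) := {y | ∃ x ∈ S, ∀ i, y i = Real.exp (t i) * x i}

/-- `|D_t B_p^n ∩ H|_k` where `H` is the range of the linear isometric embedding `A` of `ℝ^k` in
`ℝ^n`: the Lebesgue measure of the part of `ℝ^k` which `A` sends into `D_t B_p^n` -/
noncomputable def sectionVolume (p : ℝ) {n k : ℕ}
    (A : EuclideanSpace ℝ (Fin k) →ₗᵢ[ℝ] EuclideanSpace ℝ (Fin n)) (t : Fin n → ℝ) : ℝ :=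
  (volume {u | A u ∈ scaled t (lpBall p n)}).toReal

theorem section_set (p : ℝ) {n k : ℕ}
    (A : EuclideanSpace ℝ (Fin k) →ₗᵢ[ℝ] EuclideanSpace ℝ (Fin n))
    (t : Fin n → ℝ) (L : EuclideanSpace ℝ (Fin k) →ₗ[ℝ] (Fin n → ℝ))
    (hLdef : ∀ x j, L x j = A x j) :
    {u | A u ∈ scaled t (lpBall p n)}
      = {x | ∑ j, Real.exp (-(p * t j)) * |L x j| ^ p ≤ 1} := by
  have key : ∀ (a b : ℝ), |Real.exp (-a) * b| ^ p = Real.exp (-(p * a)) * |b| ^ p := by
    intro a b
    rw [abs_mul, Real.mul_rpow (abs_nonneg _) (abs_nonneg _), abs_of_pos (Real.exp_pos _),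
      ← Real.exp_mul]
    congr 2; ring
  ext x
  simp only [mem_ofPred_eq, scaled, lpBall, hLdef]
  constructor
  · rintro ⟨y, hy, hxy⟩
    refine le_trans (le_of_eq (Finset.sum_congr rfl (fun j _ => ?_))) hy
    rw [← key, hxy j, ← mul_assoc, ← Real.exp_add, neg_add_cancel, Real.exp_zero, one_mul]
  · intro h
    refine ⟨WithLp.toLp 2 (fun j => Real.exp (-(t j)) * A x j), ?_, fun i => ?_⟩
    · simp only [key]
      exact h
    · simp only
      rw [← mul_assoc, ← Real.exp_add, add_neg_cancel, Real.exp_zero, one_mul]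

/-- every `k`-dimensional subspace is the range of such an embedding -/
theorem exists_isometry {n k : ℕ} (H : Submodule ℝ (EuclideanSpace ℝ (Fin n)))
    (hH : Module.finrank ℝ H = k) :
    ∃ A : EuclideanSpace ℝ (Fin k) →ₗᵢ[ℝ] EuclideanSpace ℝ (Fin n),
      LinearMap.range A.toLinearMap = H := by
  subst hH
  let b := stdOrthonormalBasis ℝ H
  refine ⟨H.subtypeₗᵢ.comp b.repr.symm.toLinearIsometry, ?_⟩
  ext y
  constructor
  · rintro ⟨x, rfl⟩
    exact (b.repr.symm x).2
  · intro hy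
    refine ⟨b.repr ⟨y, hy⟩, ?_⟩
    simp

theorem result (p : ℝ) (hp : 1 < p) (hp2 : p < 2) (n k : ℕ) (hk : 1 ≤ k)
    (A : EuclideanSpace ℝ (Fin k) →ₗᵢ[ℝ] EuclideanSpace ℝ (Fin n)) :
    (∀ t : Fin n → ℝ, 0 < sectionVolume p A t) ∧
      ConcaveOn ℝ Set.univ (fun t : Fin n → ℝ => Real.log (sectionVolume p A t)) := by
  haveI : Nonempty (Fin k) := ⟨⟨0, hk⟩⟩
  haveI : Nontrivial (EuclideanSpace ℝ (Fin k)) := inferInstance
  let L : EuclideanSpace ℝ (Fin k) →ₗ[ℝ] (Fin n → ℝ) :=
    (WithLp.linearEquiv 2 ℝ (Fin n → ℝ)).toLinearMap ∘ₗ A.toLinearMap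
  have hL : Function.Injective L :=
    (WithLp.linearEquiv 2 ℝ (Fin n → ℝ)).injective.comp A.injective
  have hLdef : ∀ (x : EuclideanSpace ℝ (Fin k)) (j : Fin n), L x j = A x j := fun x j => rfl
  have hset : ∀ t : Fin n → ℝ, sectionVolume p A t
      = (volume {x | ∑ j, Real.exp (-(p * t j)) * |L x j| ^ p ≤ 1}).toReal := by
    intro t
    unfold sectionVolume
    rw [section_set p A t L hLdef]
  simp only [hset]
  exact ⟨(volume_continuous volume L hL p (by linarith)).1,
    concave_of_TP volume L hL p hp.le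
      (LC_below_two volume L hL p (by linarith) hp2)⟩

end Pool.Agent.Results.MP_10bc19_gt.SectionsBelowTwo
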